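import Pool.Agent.R517.PDS.Low

/-!
# Lower bound for the differences of the eigenvalues, with the size of the frequency
-/

set_option autoImplicit false

namespace Pool.Agent.R517.PDL

open Finset Equiv
open Pool.Agent.Y998.ST (lam)
open Pool.Agent.R517.PDS
open Pool.Agent.R517.PDS.LOW

/-- `ℓ¹` norm on the torus -/
def nrm {d L : ℕ} [NeZero L] (k : Fin d → ZMod L) : ℕ := ∑ i, (k i).valMinAbs.natAbs

/-- lower bound for the differences of the eigenvalues -/
def S_LOW2 : Prop := ∀ d : ℕ, 1 ≤ d → ∀ A : ℝ, 0 < A → ∃ c : ℝ, 0 < c ∧ ∀ (L M : ℕ) [NeZero L]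
  (t : ℝ), 0 < t → 1 ≤ M → 12 * M ≤ L → M * Real.sqrt t ≤ A * L →
  ∀ θ : Fin d → ZMod L, θ ∈ win d L M →
    c * (t * M * nrm θ / (L : ℝ) ^ 2) ^ 2 * ((win d L (3 * M)).card : ℝ) ≤
      ∑ k ∈ win d L (3 * M), ∑ k' ∈ win d L (3 * M),
        if k + k' = θ then (ev t k - ev t k') ^ 2 else 0

theorem t_LOW2 : S_LOW2 := by
  classical
  intro d hd A hA
  set E0 : ℝ := Real.exp (-(36 * Real.pi ^ 2 * d * A ^ 2)) with hE0
  have hE0pos : 0 < E0 := Real.exp_pos _
  refine ⟨E0 ^ 2 * 32 ^ 2 / 7 ^ d, by positivity, ?_⟩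
  intro L M _ t ht hM hML hMt θ hθw
  have hL : (0 : ℝ) < L := by exact_mod_cast Nat.pos_of_ne_zero (NeZero.ne L)
  have hM1 : (1 : ℝ) ≤ M := by exact_mod_cast hM
  set σ : Fin d → ℤ := fun i => if (θ i).valMinAbs < 0 then -1 else 1 with hσ
  set a : Fin d → ℕ := fun i => (θ i).valMinAbs.natAbs with ha
  have hσ1 : ∀ i, σ i = 1 ∨ σ i = -1 := by
    intro i
    by_cases h : (θ i).valMinAbs < 0
    · right; exact if_pos h
    · left; exact if_neg h
  have hσa : ∀ i, σ i * (a i : ℤ) = (θ i).valMinAbs := by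
    intro i
    simp only [hσ, ha]
    split_ifs with h
    · omega
    · omega
  have haM : ∀ i, a i ≤ M := fun i => (Finset.mem_filter.1 hθw).2 i
  have hab : ∀ i (p : ℕ), |σ i * (p : ℤ)| = p ∧ (σ i * (p : ℤ)).natAbs = p := by
    intro i p
    rcases hσ1 i with h | h
    · rw [h, one_mul]; exact ⟨abs_of_nonneg (by positivity), Int.natAbs_natCast p⟩
    · rw [h, neg_one_mul, abs_neg, Int.natAbs_neg]
      exact ⟨abs_of_nonneg (by positivity), Int.natAbs_natCast p⟩
  let kk : (Fin d → Fin M) → Fin d → ZMod L := fun j i =>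
    ((σ i * ((a i + (M + (j i : ℕ)) : ℕ) : ℤ) : ℤ) : ZMod L)
  let kp : (Fin d → Fin M) → Fin d → ZMod L := fun j i =>
    ((-(σ i * ((M + (j i : ℕ) : ℕ) : ℤ)) : ℤ) : ZMod L)
  have hsum : ∀ j, kk j + kp j = θ := by
    intro j
    funext i
    show ((σ i * ((a i + (M + (j i : ℕ)) : ℕ) : ℤ) : ℤ) : ZMod L) +
      ((-(σ i * ((M + (j i : ℕ) : ℕ) : ℤ)) : ℤ) : ZMod L) = θ i
    rw [← Int.cast_add]
    have h1 : σ i * ((a i + (M + (j i : ℕ)) : ℕ) : ℤ) + -(σ i * ((M + (j i : ℕ) : ℕ) : ℤ)) =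
        (θ i).valMinAbs := by
      rw [← hσa i]; push_cast; ring
    rw [h1, ZMod.coe_valMinAbs]
  have hvk : ∀ j i, (kk j i).valMinAbs = σ i * ((a i + (M + (j i : ℕ)) : ℕ) : ℤ) := by
    intro j i
    refine vma L _ ?_
    rw [(hab i _).1]
    have h1 := haM i
    have h2 := (j i).2
    omega
  have hvp : ∀ j i, (kp j i).valMinAbs = -(σ i * ((M + (j i : ℕ) : ℕ) : ℤ)) := by
    intro j i
    refine vma L _ ?_
    rw [abs_neg, (hab i _).1]
    have h2 := (j i).2
    omega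
  have hkw : ∀ j, kk j ∈ win d L (3 * M) := by
    intro j
    refine Finset.mem_filter.2 ⟨Finset.mem_univ _, fun i => ?_⟩
    rw [hvk j i, (hab i _).2]
    have h1 := haM i
    have h2 := (j i).2
    omega
  have hpw : ∀ j, kp j ∈ win d L (3 * M) := by
    intro j
    refine Finset.mem_filter.2 ⟨Finset.mem_univ _, fun i => ?_⟩
    rw [hvp j i, Int.natAbs_neg, (hab i _).2]
    have h2 := (j i).2
    omega
  have hinj : Function.Injective fun j => (kk j, kp j) := by
    intro j j' h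
    have h1 : kp j = kp j' := (Prod.mk.inj h).2
    funext i
    have h2 : (kp j i).valMinAbs.natAbs = (kp j' i).valMinAbs.natAbs := by rw [h1]
    rw [hvp j i, hvp j' i, Int.natAbs_neg, Int.natAbs_neg, (hab i _).2, (hab i _).2] at h2
    exact Fin.ext (by omega)
  have hlow : ∀ j, E0 * (32 * (t * M * nrm θ / (L : ℝ) ^ 2)) ≤ ev t (kp j) - ev t (kk j) := by
    intro j
    have hdi : ∀ i, 16 * (2 * ((M + (j i : ℕ) : ℕ) : ℝ) + a i) * a i / (L : ℝ) ^ 2 ≤
        lam (kk j i) - lam (kp j i) := by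
      intro i
      have h1 : lam (kk j i) = lam (((a i + (M + (j i : ℕ)) : ℕ) : ℤ) : ZMod L) :=
        lam_sgn L (σ i) (hσ1 i) _
      have h2 : lam (kp j i) = lam (((M + (j i : ℕ) : ℕ) : ℤ) : ZMod L) := by
        show lam ((-(σ i * ((M + (j i : ℕ) : ℕ) : ℤ)) : ℤ) : ZMod L) = _
        rw [lam_neg, lam_sgn L (σ i) (hσ1 i)]
      rw [h1, h2]
      exact lam_diff L M hML (a i) (M + (j i : ℕ)) (haM i) (by have := (j i).2; omega)
    have hXY : 32 * M * nrm θ / (L : ℝ) ^ 2 ≤ ∑ i, lam (kk j i) - ∑ i, lam (kp j i) := by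
      rw [← Finset.sum_sub_distrib]
      have hn : (32 * M * nrm θ / (L : ℝ) ^ 2 : ℝ) = ∑ i, 32 * M * (a i : ℝ) / (L : ℝ) ^ 2 := by
        unfold nrm
        push_cast
        rw [← Finset.sum_div, ← Finset.mul_sum]
      rw [hn]
      refine Finset.sum_le_sum fun i _ => le_trans ?_ (hdi i)
      refine div_le_div_of_nonneg_right ?_ (by positivity)
      have ha1 : (0 : ℝ) ≤ a i := Nat.cast_nonneg _
      push_cast
      have hj0 : (0 : ℝ) ≤ ((j i : ℕ) : ℝ) := Nat.cast_nonneg _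
      nlinarith [mul_nonneg ha1 hj0, mul_nonneg ha1 ha1]
    have hX : t * ∑ i, lam (kk j i) ≤ 36 * Real.pi ^ 2 * d * A ^ 2 := by
      have h1 : ∀ i, lam (kk j i) ≤ (2 * Real.pi * (3 * M) / L) ^ 2 := by
        intro i
        have h1 : lam (kk j i) = lam (((a i + (M + (j i : ℕ)) : ℕ) : ℤ) : ZMod L) :=
          lam_sgn L (σ i) (hσ1 i) _
        rw [h1]
        refine (lam_le L _).trans ?_
        have h2 : ((((a i + (M + (j i : ℕ)) : ℕ) : ℤ) : ℝ)) ≤ 3 * M := by
          have h3 := haM i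
          have h4 := (j i).2
          have h5 : a i + (M + (j i : ℕ)) ≤ 3 * M := by omega
          exact_mod_cast h5
        have h6 : (0 : ℝ) ≤ (((a i + (M + (j i : ℕ)) : ℕ) : ℤ) : ℝ) := by positivity
        have hpi := Real.pi_pos
        refine pow_le_pow_left₀ (by positivity) ?_ 2
        refine div_le_div_of_nonneg_right ?_ hL.le
        exact mul_le_mul_of_nonneg_left h2 (by positivity)
      have h2 : ∑ i, lam (kk j i) ≤ d * (2 * Real.pi * (3 * M) / L) ^ 2 := by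
        refine (Finset.sum_le_sum fun i _ => h1 i).trans ?_
        rw [Finset.sum_const, Finset.card_univ, Fintype.card_fin, nsmul_eq_mul]
      have h3 : (M * Real.sqrt t) ^ 2 ≤ (A * L) ^ 2 :=
        pow_le_pow_left₀ (by positivity) hMt 2
      rw [mul_pow, Real.sq_sqrt ht.le, mul_pow] at h3
      calc t * ∑ i, lam (kk j i) ≤ t * (d * (2 * Real.pi * (3 * M) / L) ^ 2) :=
            mul_le_mul_of_nonneg_left h2 ht.le
        _ = 36 * Real.pi ^ 2 * d * (((M : ℝ) ^ 2 * t) / (L : ℝ) ^ 2) := by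
            field_simp; ring
        _ ≤ 36 * Real.pi ^ 2 * d * A ^ 2 := by
            refine mul_le_mul_of_nonneg_left ?_ (by positivity)
            rw [div_le_iff₀ (by positivity)]
            exact h3
    have h4 : ev t (kp j) - ev t (kk j) = Real.exp (-(t * ∑ i, lam (kk j i))) *
        (Real.exp (t * (∑ i, lam (kk j i) - ∑ i, lam (kp j i))) - 1) := by
      unfold ev
      rw [mul_sub, ← Real.exp_add, mul_one]
      congr 2
      ring
    have h5 : E0 ≤ Real.exp (-(t * ∑ i, lam (kk j i))) := by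
      rw [hE0]
      exact Real.exp_le_exp.2 (by linarith)
    have h6 := Real.add_one_le_exp (t * (∑ i, lam (kk j i) - ∑ i, lam (kp j i)))
    have h7 : 32 * (t * M * nrm θ / (L : ℝ) ^ 2) ≤
        t * (∑ i, lam (kk j i) - ∑ i, lam (kp j i)) := by
      have h8 := mul_le_mul_of_nonneg_left hXY ht.le
      refine le_trans (le_of_eq ?_) h8
      ring
    rw [h4]
    exact mul_le_mul h5 (by linarith) (by positivity) (Real.exp_pos _).le
  have key : ((M : ℝ) ^ d) * (E0 * (32 * (t * M * nrm θ / (L : ℝ) ^ 2))) ^ 2 ≤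
      ∑ k ∈ win d L (3 * M), ∑ k' ∈ win d L (3 * M),
        if k + k' = θ then (ev t k - ev t k') ^ 2 else 0 := by
    rw [← Finset.sum_product' (win d L (3 * M)) (win d L (3 * M))
      (fun k k' => if k + k' = θ then (ev t k - ev t k') ^ 2 else 0)]
    set F : (Fin d → ZMod L) × (Fin d → ZMod L) → ℝ :=
      fun p => if p.1 + p.2 = θ then (ev t p.1 - ev t p.2) ^ 2 else 0 with hF
    have hF0 : ∀ p, 0 ≤ F p := by
      intro p
      simp only [hF]
      split_ifs
      · positivity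
      · exact le_rfl
    have himg : (Finset.univ.image fun j => (kk j, kp j)) ⊆
        win d L (3 * M) ×ˢ win d L (3 * M) := by
      intro p hp
      obtain ⟨j, _, rfl⟩ := Finset.mem_image.1 hp
      exact Finset.mem_product.2 ⟨hkw j, hpw j⟩
    calc (M : ℝ) ^ d * (E0 * (32 * (t * M * nrm θ / (L : ℝ) ^ 2))) ^ 2 =
        ∑ _j : Fin d → Fin M, (E0 * (32 * (t * M * nrm θ / (L : ℝ) ^ 2))) ^ 2 := by
          rw [Finset.sum_const, Finset.card_univ, Fintype.card_fun, Fintype.card_fin,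
            Fintype.card_fin, nsmul_eq_mul]
          push_cast
          ring
      _ ≤ ∑ j, F (kk j, kp j) := by
          refine Finset.sum_le_sum fun j _ => ?_
          have h1 : F (kk j, kp j) = (ev t (kk j) - ev t (kp j)) ^ 2 := if_pos (hsum j)
          rw [h1]
          have h2 : (ev t (kk j) - ev t (kp j)) ^ 2 = (ev t (kp j) - ev t (kk j)) ^ 2 := by ring
          rw [h2]
          exact pow_le_pow_left₀ (by positivity) (hlow j) 2
      _ = ∑ p ∈ Finset.univ.image fun j => (kk j, kp j), F p :=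
          (Finset.sum_image fun x _ y _ h => hinj h).symm
      _ ≤ ∑ p ∈ win d L (3 * M) ×ˢ win d L (3 * M), F p :=
          Finset.sum_le_sum_of_subset_of_nonneg himg fun p _ _ => hF0 p
  refine le_trans ?_ key
  have hcard : ((win d L (3 * M)).card : ℝ) ≤ 7 ^ d * (M : ℝ) ^ d := by
    have h1 : ((win d L (3 * M)).card : ℝ) ≤ (((7 * M) ^ d : ℕ) : ℝ) := by
      exact_mod_cast card_win d L M hM
    refine h1.trans (le_of_eq ?_)
    push_cast
    rw [mul_pow]
  calc E0 ^ 2 * 32 ^ 2 / 7 ^ d * (t * M * nrm θ / (L : ℝ) ^ 2) ^ 2 * ((win d L (3 * M)).card : ℝ) ≤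
      E0 ^ 2 * 32 ^ 2 / 7 ^ d * (t * M * nrm θ / (L : ℝ) ^ 2) ^ 2 * (7 ^ d * (M : ℝ) ^ d) :=
        mul_le_mul_of_nonneg_left hcard (by positivity)
    _ = (M : ℝ) ^ d * (E0 * (32 * (t * M * nrm θ / (L : ℝ) ^ 2))) ^ 2 := by
        field_simp

end Pool.Agent.R517.PDL
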