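import Pool.Agent.R517.PDL.L1
import Pool.Agent.R517.PDS.All

/-!
# Parseval identity for the two-point function, and the splitting of the frequencies
-/

set_option autoImplicit false

namespace Pool.Agent.R517.PDL

open Finset Equiv
open Pool.Agent.Y998.ST (stirLaw stirExp hop nnRate lam exp_const exp_nonneg nn_nonneg nn_symm
  nn_diag law_nonneg)
open Pool.Agent.Y998.LP (NN bfrac tdist)
open Pool.Agent.R517.PDS

section torus

variable {d L : ℕ} [NeZero L]

theorem PP_symm' (t : ℝ) (x y : Fin d → ZMod L) : PP (nnRate d L) t x y = PP (nnRate d L) t y x := by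
  unfold PP
  congr 1
  funext g
  congr 1
  exact propext ⟨fun h => h.symm, fun h => h.symm⟩

theorem ch_mul_conj (k x y : Fin d → ZMod L) :
    ch k x * (starRingEnd ℂ) (ch k y) = ch k (x - y) := by
  rw [sub_eq_add_neg, Par.ch_add, Par.ch_neg]

theorem cc_complex (t : ℝ) (k : Fin d → ZMod L) :
    ((cc d L t k : ℝ) : ℂ) = 1 / ((L : ℂ) ^ d) ^ 2 *
      ∑ x, ∑ y, (PP (nnRate d L) t x y : ℂ) * ch k (x - y) := by
  classical
  have e1 : stirExp (nnRate d L) t (fun g => DS g Finset.univ (ch k)) =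
      ∑ x, ∑ y, PP (nnRate d L) t x y * (ch k (x - y)).re := by
    unfold DS
    rw [stirExp_sum]
    refine Finset.sum_congr rfl fun x _ => ?_
    rw [stirExp_sum]
    refine Finset.sum_congr rfl fun y _ => ?_
    have h1 : PP (nnRate d L) t x y * (ch k (x - y)).re = stirExp (nnRate d L) t
        (fun g => (ch k (x - y)).re * (if g.SameCycle x y then 1 else 0)) := by
      rw [stirExp_smul, mul_comm]
      rfl
    rw [h1]
    congr 1
    funext g
    rw [ch_mul_conj]
    split_ifs <;> simp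
  have e2 : ∀ z : Fin d → ZMod L, (((ch k z).re : ℝ) : ℂ) = (ch k z + ch k (-z)) / 2 := by
    intro z
    rw [Par.ch_neg, Complex.re_eq_add_conj]
  have e3 : ∑ x, ∑ y, (PP (nnRate d L) t x y : ℂ) * ch k (-(x - y)) =
      ∑ x, ∑ y, (PP (nnRate d L) t x y : ℂ) * ch k (x - y) := by
    rw [Finset.sum_comm]
    refine Finset.sum_congr rfl fun y _ => Finset.sum_congr rfl fun x _ => ?_
    rw [PP_symm', neg_sub]
  have e4 : ((∑ x, ∑ y, PP (nnRate d L) t x y * (ch k (x - y)).re : ℝ) : ℂ) =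
      ∑ x, ∑ y, (PP (nnRate d L) t x y : ℂ) * ch k (x - y) := by
    have h1 : ((∑ x, ∑ y, PP (nnRate d L) t x y * (ch k (x - y)).re : ℝ) : ℂ) =
        (∑ x, ∑ y, (PP (nnRate d L) t x y : ℂ) * ch k (x - y) +
          ∑ x, ∑ y, (PP (nnRate d L) t x y : ℂ) * ch k (-(x - y))) / 2 := by
      push_cast
      rw [← Finset.sum_add_distrib, Finset.sum_div]
      refine Finset.sum_congr rfl fun x _ => ?_
      rw [← Finset.sum_add_distrib, Finset.sum_div]
      refine Finset.sum_congr rfl fun y _ => ?_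
      rw [e2]
      ring
    rw [h1, e3]
    ring
  unfold cc
  rw [e1]
  push_cast at e4 ⊢
  rw [e4]
  ring

theorem key_four (t : ℝ) (z : Fin d → ZMod L) :
    ∑ k : Fin d → ZMod L, ((cc d L t k : ℝ) : ℂ) * ch k z = (PP (nnRate d L) t z 0 : ℂ) := by
  classical
  have hL : (L : ℂ) ≠ 0 := by exact_mod_cast NeZero.ne L
  have hn : (L : ℂ) ^ d ≠ 0 := pow_ne_zero d hL
  have e1 : ∑ k : Fin d → ZMod L, ((cc d L t k : ℝ) : ℂ) * ch k z =
      1 / ((L : ℂ) ^ d) ^ 2 * ∑ x, ∑ y, (PP (nnRate d L) t x y : ℂ) *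
        ∑ k : Fin d → ZMod L, ch k (x - y + z) := by
    simp only [cc_complex, Finset.mul_sum, Finset.sum_mul]
    rw [Finset.sum_comm]
    refine Finset.sum_congr rfl fun x _ => ?_
    rw [Finset.sum_comm]
    refine Finset.sum_congr rfl fun y _ => Finset.sum_congr rfl fun k _ => ?_
    rw [Par.ch_add]
    ring
  rw [e1]
  simp only [Par.orth]
  have e2 : ∀ x : Fin d → ZMod L, ∑ y, (PP (nnRate d L) t x y : ℂ) *
      (if x - y + z = 0 then (L : ℂ) ^ d else 0) = (PP (nnRate d L) t z 0 : ℂ) * (L : ℂ) ^ d := by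
    intro x
    rw [Finset.sum_eq_single (x + z)]
    · rw [if_pos (by abel)]
      have h1 := PP_trans (d := d) (L := L) t x 0 z
      rw [add_zero] at h1
      rw [h1, PP_symm']
    · intro y _ hy
      rw [if_neg, mul_zero]
      intro h
      refine hy ?_
      have : y = x + z - (x - y + z) := by abel
      rw [this, h, sub_zero]
    · intro h
      exact absurd (Finset.mem_univ _) h
  rw [Finset.sum_congr rfl fun x _ => e2 x, Finset.sum_const, Finset.card_univ, nsmul_eq_mul]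
  have e3 : (Fintype.card (Fin d → ZMod L) : ℂ) = (L : ℂ) ^ d := by
    rw [Fintype.card_fun, ZMod.card, Fintype.card_fin]
    push_cast
    rfl
  rw [e3]
  field_simp

/-- Parseval -/
theorem par_gen (t : ℝ) (u : (Fin d → ZMod L) → ℝ) :
    stirExp (nnRate d L) t (fun g => DR g Finset.univ u) =
      ∑ k : Fin d → ZMod L, ‖∑ x, (u x : ℂ) * ch k x‖ ^ 2 * cc d L t k := by
  classical
  have h1 : ((∑ k : Fin d → ZMod L, ‖∑ x, (u x : ℂ) * ch k x‖ ^ 2 * cc d L t k : ℝ) : ℂ) =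
      ∑ x, ∑ y, (u x : ℂ) * u y * (PP (nnRate d L) t x y : ℂ) := by
    push_cast
    have e1 : ∀ k : Fin d → ZMod L, ((‖∑ x, (u x : ℂ) * ch k x‖ : ℝ) : ℂ) ^ 2 *
        ((cc d L t k : ℝ) : ℂ) = ∑ x, ∑ y, (u x : ℂ) * u y * (((cc d L t k : ℝ) : ℂ) *
          ch k (x - y)) := by
      intro k
      have h : ((‖∑ x, (u x : ℂ) * ch k x‖ : ℝ) : ℂ) ^ 2 =
          (∑ x, (u x : ℂ) * ch k x) * (starRingEnd ℂ) (∑ x, (u x : ℂ) * ch k x) := by
        rw [Complex.mul_conj, Complex.normSq_eq_norm_sq]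
        push_cast
        rfl
      rw [h, map_sum, Finset.sum_mul_sum, Finset.sum_mul]
      refine Finset.sum_congr rfl fun x _ => ?_
      rw [Finset.sum_mul]
      refine Finset.sum_congr rfl fun y _ => ?_
      rw [map_mul, Complex.conj_ofReal, ← ch_mul_conj]
      ring
    rw [Finset.sum_congr rfl fun k _ => e1 k, Finset.sum_comm]
    refine Finset.sum_congr rfl fun x _ => ?_
    rw [Finset.sum_comm]
    refine Finset.sum_congr rfl fun y _ => ?_
    rw [← Finset.mul_sum, key_four]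
    congr 2
    have h2 := PP_trans (d := d) (L := L) t y (x - y) 0
    rw [add_zero, add_sub_cancel] at h2
    rw [h2]
  rw [exp_DR]
  have h2 : ((∑ x, ∑ y, u x * u y * PP (nnRate d L) t x y : ℝ) : ℂ) =
      ∑ x, ∑ y, (u x : ℂ) * u y * (PP (nnRate d L) t x y : ℂ) := by
    push_cast
    rfl
  rw [← h2] at h1
  exact (Complex.ofReal_injective h1).symm

/-- the difference of the normalized indicators of two translates of `B` -/
noncomputable def dif (B : Finset (Fin d → ZMod L)) (v v' x : Fin d → ZMod L) : ℝ :=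
  (if x ∈ B.image (fun b => v + b) then 1 / (B.card : ℝ) else 0) -
    (if x ∈ B.image (fun b => v' + b) then 1 / (B.card : ℝ) else 0)

theorem four_image (B : Finset (Fin d → ZMod L)) (v k : Fin d → ZMod L) :
    ∑ x, (((if x ∈ B.image (fun b => v + b) then 1 / (B.card : ℝ) else 0 : ℝ)) : ℂ) * ch k x =
      ch k v * bh B k := by
  classical
  have e1 : ∀ x : Fin d → ZMod L,
      (((if x ∈ B.image (fun b => v + b) then 1 / (B.card : ℝ) else 0 : ℝ)) : ℂ) * ch k x =
      if x ∈ B.image (fun b => v + b) then 1 / (B.card : ℂ) * ch k x else 0 := by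
    intro x
    split_ifs
    · push_cast
      rfl
    · simp
  rw [Finset.sum_congr rfl fun x _ => e1 x, Finset.sum_ite_mem, Finset.univ_inter,
    Finset.sum_image (fun a _ b _ h => add_left_cancel h)]
  unfold bh
  rw [← mul_div_assoc, Finset.mul_sum, Finset.sum_div]
  refine Finset.sum_congr rfl fun b _ => ?_
  rw [Par.ch_add]
  ring

theorem four_dif (B : Finset (Fin d → ZMod L)) (v v' k : Fin d → ZMod L) :
    ∑ x, ((dif B v v' x : ℝ) : ℂ) * ch k x = (ch k v - ch k v') * bh B k := by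
  classical
  have e1 : ∀ x : Fin d → ZMod L, ((dif B v v' x : ℝ) : ℂ) * ch k x =
      (((if x ∈ B.image (fun b => v + b) then 1 / (B.card : ℝ) else 0 : ℝ)) : ℂ) * ch k x -
      (((if x ∈ B.image (fun b => v' + b) then 1 / (B.card : ℝ) else 0 : ℝ)) : ℂ) * ch k x := by
    intro x
    unfold dif
    rw [Complex.ofReal_sub]
    ring
  rw [Finset.sum_congr rfl fun x _ => e1 x, Finset.sum_sub_distrib, four_image, four_image]
  ring

theorem ch_near (k w : Fin d → ZMod L) : ‖ch k w - 1‖ ≤ 2 * Real.pi * nrm k * nrm w / L := by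
  have hL : (0 : ℝ) < L := by exact_mod_cast Nat.pos_of_ne_zero (NeZero.ne L)
  have hpi := Real.pi_pos
  set m : ℤ := ∑ i, (k i).valMinAbs * (w i).valMinAbs with hm
  have h1 : ch k w = Complex.exp (Complex.I * ((2 * Real.pi * m / L : ℝ) : ℂ)) := by
    unfold ch
    have h2 : ∑ i, k i * w i = ((m : ℤ) : ZMod L) := by
      rw [hm]
      push_cast
      exact Finset.sum_congr rfl fun i _ => by simp
    rw [h2, ZMod.stdAddChar_coe]
    congr 1
    push_cast
    ring
  rw [h1]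
  refine Real.norm_exp_I_mul_ofReal_sub_one_le.trans ?_
  have h3 : |(m : ℝ)| ≤ nrm k * nrm w := by
    have h4 : m.natAbs ≤ nrm k * nrm w := by
      rw [hm]
      refine (Int.natAbs_sum_le _ _).trans ?_
      unfold nrm
      rw [Finset.sum_mul]
      refine Finset.sum_le_sum fun i _ => ?_
      rw [Int.natAbs_mul]
      exact Nat.mul_le_mul_left _ (Finset.single_le_sum (f := fun i => (w i).valMinAbs.natAbs)
        (fun i _ => Nat.zero_le _) (Finset.mem_univ i))
    have h5 : ((m.natAbs : ℕ) : ℝ) ≤ nrm k * nrm w := by exact_mod_cast h4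
    rwa [Nat.cast_natAbs, Int.cast_abs] at h5
  rw [Real.norm_eq_abs, abs_div, abs_mul, abs_mul, abs_of_pos (two_pos : (0 : ℝ) < 2),
    abs_of_pos hpi, Nat.abs_cast]
  refine div_le_div_of_nonneg_right ?_ hL.le
  calc 2 * Real.pi * |(m : ℝ)| ≤ 2 * Real.pi * (nrm k * nrm w) :=
        mul_le_mul_of_nonneg_left h3 (by positivity)
    _ = _ := by ring

theorem ch_diff (k v v' : Fin d → ZMod L) :
    ‖ch k v - ch k v'‖ ≤ 2 * Real.pi * nrm k * nrm (v - v') / L ∧ ‖ch k v - ch k v'‖ ≤ 2 := by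
  have h1 : ∀ x : Fin d → ZMod L, ‖ch k x‖ = 1 := fun x => by
    unfold ch
    exact AddChar.norm_apply _ _
  constructor
  · have h2 : ch k v - ch k v' = ch k v' * (ch k (v - v') - 1) := by
      rw [mul_sub, ← Par.ch_add, mul_one]
      congr 2
      abel
    rw [h2, norm_mul, h1, one_mul]
    exact ch_near k (v - v')
  · refine (norm_sub_le _ _).trans ?_
    rw [h1, h1]
    norm_num

theorem bh_le (B : Finset (Fin d → ZMod L)) (hB : 0 < B.card) (k : Fin d → ZMod L) :
    ‖bh B k‖ ≤ 1 := by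
  unfold bh
  rw [norm_div, Complex.norm_natCast, div_le_one (by exact_mod_cast hB)]
  refine (norm_sum_le _ _).trans ?_
  have : ∀ b : Fin d → ZMod L, ‖ch k b‖ = 1 := fun b => by
    unfold ch
    exact AddChar.norm_apply _ _
  simp only [this, Finset.sum_const, nsmul_eq_mul, mul_one]
  exact le_rfl

/-- the two ranges of frequencies -/
theorem split2 (hDS : ∀ (g : Perm (Fin d → ZMod L)) (u : (Fin d → ZMod L) → ℂ),
    0 ≤ DS g Finset.univ u) {t : ℝ} (ht : 0 ≤ t) (M R : ℕ)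
    (hR : 1 ≤ R) (hRL : R ≤ L) (hbox : 0 < (box d L R).card) (v v' : Fin d → ZMod L) :
    stirExp (nnRate d L) t (fun g => DR g Finset.univ (dif (box d L R) v v')) ≤
      4 * (L / (2 * (R * ((M : ℝ) + 1)))) ^ 2 + (2 * Real.pi * nrm (v - v') / L) ^ 2 *
        ∑ θ ∈ win d L M, (nrm θ : ℝ) ^ 2 * cc d L t θ := by
  classical
  have hcc := cc_nonneg (d := d) (L := L) hDS ht
  rw [par_gen]
  have hpt : ∀ k : Fin d → ZMod L, ‖∑ x, ((dif (box d L R) v v' x : ℝ) : ℂ) * ch k x‖ ^ 2 *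
      cc d L t k ≤ 4 * (L / (2 * (R * ((M : ℝ) + 1)))) ^ 2 * cc d L t k +
        (if k ∈ win d L M then (2 * Real.pi * nrm (v - v') / L) ^ 2 *
          ((nrm k : ℝ) ^ 2 * cc d L t k) else 0) := by
    intro k
    rw [four_dif, norm_mul, mul_pow]
    obtain ⟨h1, h2⟩ := ch_diff k v v'
    by_cases hw : k ∈ win d L M
    · rw [if_pos hw]
      have h3 : ‖bh (box d L R) k‖ ^ 2 ≤ 1 := pow_le_one₀ (norm_nonneg _) (bh_le _ hbox k)
      have h4 : ‖ch k v - ch k v'‖ ^ 2 ≤ (2 * Real.pi * nrm k * nrm (v - v') / L) ^ 2 :=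
        pow_le_pow_left₀ (norm_nonneg _) h1 2
      have h5 : ‖ch k v - ch k v'‖ ^ 2 * ‖bh (box d L R) k‖ ^ 2 ≤
          (2 * Real.pi * nrm k * nrm (v - v') / L) ^ 2 :=
        (mul_le_of_le_one_right (sq_nonneg _) h3).trans h4
      have h6 := mul_le_mul_of_nonneg_right h5 (hcc k)
      have h7 : 0 ≤ 4 * (L / (2 * (R * ((M : ℝ) + 1)))) ^ 2 * cc d L t k :=
        mul_nonneg (by positivity) (hcc k)
      have e8 : (2 * Real.pi * nrm k * nrm (v - v') / L) ^ 2 * cc d L t k =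
          (2 * Real.pi * nrm (v - v') / L) ^ 2 * ((nrm k : ℝ) ^ 2 * cc d L t k) := by
        ring
      rw [e8] at h6
      linarith
    · rw [if_neg hw, add_zero]
      refine mul_le_mul_of_nonneg_right ?_ (hcc k)
      have h4 : ‖ch k v - ch k v'‖ ^ 2 ≤ 4 := by
        have := pow_le_pow_left₀ (norm_nonneg _) h2 2
        norm_num at this
        exact this
      refine mul_le_mul h4 ?_ (sq_nonneg _) (by norm_num)
      refine pow_le_pow_left₀ (norm_nonneg _) ?_ 2
      unfold win at hw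
      simp only [Finset.mem_filter, Finset.mem_univ, true_and, not_forall, not_le] at hw
      obtain ⟨i, hi⟩ := hw
      have hki : k i ≠ 0 := by
        intro h
        rw [h, ZMod.valMinAbs_zero] at hi
        simp at hi
      refine (t_DIR d L R hR hRL k i hki).trans ?_
      have h1 : ((M : ℝ) + 1) ≤ |((k i).valMinAbs : ℝ)| := by
        have h2 : ((M + 1 : ℕ) : ℝ) ≤ ((k i).valMinAbs.natAbs : ℝ) := by exact_mod_cast hi
        rw [Nat.cast_natAbs] at h2
        push_cast at h2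
        exact h2
      have hRr : (0 : ℝ) < R := by exact_mod_cast hR
      refine div_le_div_of_nonneg_left (by positivity) (by positivity) ?_
      have := mul_le_mul_of_nonneg_left h1 (by positivity : (0 : ℝ) ≤ 2 * R)
      linarith
  refine (Finset.sum_le_sum fun k _ => hpt k).trans ?_
  rw [Finset.sum_add_distrib, ← Finset.mul_sum]
  refine add_le_add ?_ (le_of_eq ?_)
  · rw [sum_cc_one (d := d) (L := L) t_PAR t, mul_one]
  · rw [← Finset.sum_filter, Finset.mul_sum, Finset.filter_mem_eq_inter, Finset.univ_inter]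

theorem low_sum2 (hDS : ∀ (g : Perm (Fin d → ZMod L)) (u : (Fin d → ZMod L) → ℂ),
    0 ≤ DS g Finset.univ u) (hL : 3 ≤ L) {t : ℝ} (ht : 0 ≤ t) (M : ℕ)
    (B : Finset (Fin d → ZMod L)) (η lm q : ℝ) (hη : 0 ≤ η) (hlm : 0 ≤ lm) (hq : 0 ≤ q)
    (hB : 0 < B.card)
    (hNN : ∀ v, ∀ x ∈ B, ∀ y ∈ B, NN (nnRate d L) (t / 2) (swap (v + x) (v + y)) ≤ η)
    (hhop : ∀ x y, hop (nnRate d L) t x y ≤ q) (hlm8 : lm ≤ 1 / 8)
    (hch : ∀ k ∈ win d L (3 * M), ∀ b ∈ B, ‖ch k b - 1‖ ≤ lm) (c : ℝ)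
    (hlow : ∀ θ : Fin d → ZMod L, θ ∈ win d L M →
      c * (t * M * nrm θ / (L : ℝ) ^ 2) ^ 2 * ((win d L (3 * M)).card : ℝ) ≤
        ∑ k ∈ win d L (3 * M), ∑ k' ∈ win d L (3 * M),
          if k + k' = θ then (ev t k - ev t k') ^ 2 else 0) :
    c * (t * M / (L : ℝ) ^ 2) ^ 2 * ∑ θ ∈ win d L M, (nrm θ : ℝ) ^ 2 * cc d L t θ ≤
      16 * (8 / B.card + 3 * lm ^ 2 + η ^ 2 + 16 * lm * q) := by
  have hLr : (L : ℝ) ≠ 0 := by exact_mod_cast NeZero.ne L
  have hn : (0 : ℝ) < ((L : ℝ) ^ d) ^ 2 := by positivity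
  obtain ⟨K, hK⟩ : ∃ K : ℝ, K = ((win d L (3 * M)).card : ℝ) := ⟨_, rfl⟩
  have hK0 : 0 < K := by
    rw [hK]
    exact_mod_cast Finset.card_pos.2 ⟨0, win_zero _⟩
  have h1 := t_WIN (t_KE t_NEG) t_EIG t_PAR t_PAIR d L hL t ht B η lm q hη hlm hq hB hNN hhop hlm8
    (win d L (3 * M)) hch
  have hcc := cc_nonneg (d := d) (L := L) hDS ht
  have h2 : ∑ k ∈ win d L (3 * M), ∑ k' ∈ win d L (3 * M), (ev t k - ev t k') ^ 2 *
      cc d L t (k + k') ≤ 16 * K * (8 / B.card + 3 * lm ^ 2 + η ^ 2 + 16 * lm * q) := by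
    have e1 : ∑ k ∈ win d L (3 * M), ∑ k' ∈ win d L (3 * M), (ev t k - ev t k') ^ 2 *
        cc d L t (k + k') = (∑ k ∈ win d L (3 * M), ∑ k' ∈ win d L (3 * M),
          (ev t k - ev t k') ^ 2 *
          stirExp (nnRate d L) t (fun g => DS g Finset.univ (ch (k + k')))) /
            ((L : ℝ) ^ d) ^ 2 := by
      rw [Finset.sum_div]
      refine Finset.sum_congr rfl fun k _ => ?_
      rw [Finset.sum_div]
      refine Finset.sum_congr rfl fun k' _ => ?_
      unfold cc
      ring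
    rw [e1, div_le_iff₀ hn]
    refine h1.trans (le_of_eq ?_)
    rw [hK]
    ring
  have h3 : ∑ θ ∈ win d L M, (∑ k ∈ win d L (3 * M), ∑ k' ∈ win d L (3 * M),
      if k + k' = θ then (ev t k - ev t k') ^ 2 else 0) * cc d L t θ ≤
      ∑ k ∈ win d L (3 * M), ∑ k' ∈ win d L (3 * M), (ev t k - ev t k') ^ 2 *
      cc d L t (k + k') := by
    have e2 : ∑ k ∈ win d L (3 * M), ∑ k' ∈ win d L (3 * M), (ev t k - ev t k') ^ 2 *
      cc d L t (k + k') = ∑ θ, (∑ k ∈ win d L (3 * M), ∑ k' ∈ win d L (3 * M),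
      if k + k' = θ then (ev t k - ev t k') ^ 2 else 0) * cc d L t θ := by
      simp only [Finset.sum_mul]
      symm
      rw [Finset.sum_comm]
      refine Finset.sum_congr rfl fun k _ => ?_
      rw [Finset.sum_comm]
      refine Finset.sum_congr rfl fun k' _ => ?_
      simp only [ite_mul, zero_mul]
      rw [Finset.sum_ite_eq, if_pos (Finset.mem_univ _)]
    rw [e2]
    refine Finset.sum_le_sum_of_subset_of_nonneg (Finset.subset_univ _) fun θ _ _ => ?_
    refine mul_nonneg (Finset.sum_nonneg fun k _ => Finset.sum_nonneg fun k' _ => ?_) (hcc θ)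
    split_ifs
    · positivity
    · exact le_rfl
  have h4 : K * (c * (t * M / (L : ℝ) ^ 2) ^ 2 * ∑ θ ∈ win d L M, (nrm θ : ℝ) ^ 2 * cc d L t θ) ≤
      ∑ θ ∈ win d L M, (∑ k ∈ win d L (3 * M), ∑ k' ∈ win d L (3 * M),
      if k + k' = θ then (ev t k - ev t k') ^ 2 else 0) * cc d L t θ := by
    rw [Finset.mul_sum, Finset.mul_sum]
    refine Finset.sum_le_sum fun θ hθ => ?_
    have := mul_le_mul_of_nonneg_right (hlow θ hθ) (hcc θ)
    rw [← hK] at this
    refine le_trans (le_of_eq ?_) this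
    ring
  have h5 := h4.trans (h3.trans h2)
  have h6 : K * (c * (t * M / (L : ℝ) ^ 2) ^ 2 * ∑ θ ∈ win d L M, (nrm θ : ℝ) ^ 2 * cc d L t θ) ≤
      K * (16 * (8 / B.card + 3 * lm ^ 2 + η ^ 2 + 16 * lm * q)) := by
    refine h5.trans (le_of_eq ?_)
    ring
  exact le_of_mul_le_mul_left h6 hK0

end torus

end Pool.Agent.R517.PDL
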