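import Pool.Agent.R517.PDL.L2

/-!
# Local homogeneity of the cycles: the parameters
-/

set_option autoImplicit false

namespace Pool.Agent.R517.PDL

open Finset Equiv
open Pool.Agent.Y998.ST (stirLaw stirExp hop nnRate lam exp_const exp_nonneg nn_nonneg nn_symm
  nn_diag law_nonneg qq_torus)
open Pool.Agent.Y998.LP (NN bfrac tdist)
open Pool.Agent.R517.PDS

/-- local homogeneity of the cycles: the densities of the cycles in two translates of a box of side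
`δ √t` at distance at most `κ t ^ ((d + 1) / (d + 2))` are close -/
def S_HOM2 : Prop := ∀ d : ℕ, 1 ≤ d → ∀ A₁ : ℝ, 1 ≤ A₁ → ∀ δ : ℝ, 0 < δ → δ * Real.sqrt A₁ ≤ 1 →
  ∀ ε : ℝ, 0 < ε → ∃ A : ℝ, 1 ≤ A ∧ ∃ κ : ℝ, 0 < κ ∧ ∀ (L : ℕ) [NeZero L], 3 ≤ L → ∀ t : ℝ,
  A ≤ t → t ≤ A₁ * (L : ℝ) ^ 2 →
  1 ≤ ⌊δ * Real.sqrt t⌋₊ ∧ ⌊δ * Real.sqrt t⌋₊ ≤ L ∧
  ∀ v v' : Fin d → ZMod L, (nrm (v - v') : ℝ) ≤ κ * t ^ (((d : ℝ) + 1) / (d + 2)) →
  stirExp (nnRate d L) t (fun g =>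
    DR g Finset.univ (dif (box d L ⌊δ * Real.sqrt t⌋₊) v v')) ≤ ε

theorem t_HOM2 : S_HOM2 := by
  have hDS : ∀ (V : Type) [Fintype V] [DecidableEq V] (g : Perm V)
    (u : V → ℂ), 0 ≤ DS g Finset.univ u := fun V _ _ g u => DS_nonneg g Finset.univ u
  intro d hd A₁ hA₁ δ hδ hδA ε hε
  obtain ⟨C, hC, hdist⟩ := Pool.Agent.Y998.LQ.t_dist d hd
  have hπ := Real.pi_pos
  have hsA1 : 1 ≤ Real.sqrt A₁ := Real.one_le_sqrt.2 hA₁
  have hsε : 0 < Real.sqrt ε := Real.sqrt_pos.2 hε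
  obtain ⟨W, hW⟩ : ∃ W : ℝ, W = Real.sqrt A₁ + 4 / (δ * Real.sqrt ε) := ⟨_, rfl⟩
  have hWA : Real.sqrt A₁ ≤ W := by
    rw [hW]
    have : 0 ≤ 4 / (δ * Real.sqrt ε) := by positivity
    linarith
  have hW1 : 1 ≤ W := hsA1.trans hWA
  have hWδ : 4 ≤ W * δ * Real.sqrt ε := by
    have h1 : 4 / (δ * Real.sqrt ε) ≤ W := by rw [hW]; linarith
    rw [div_le_iff₀ (by positivity)] at h1
    linarith
  have hdr : (1 : ℝ) ≤ d := by exact_mod_cast hd
  obtain ⟨c, hc, hlow⟩ := t_LOW2 d hd W (by linarith)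
  obtain ⟨K, hK⟩ : ∃ K : ℝ, K = 3 * (12 * Real.pi * d * W) ^ 2 + 9 * C ^ 2 * d ^ 2 +
    16 * (12 * Real.pi * d * W) * (1 + Real.sqrt A₁) := ⟨_, rfl⟩
  have hK0 : 0 ≤ K := by rw [hK]; positivity
  obtain ⟨A, hA⟩ : ∃ A : ℝ, A = 1 + 144 * W ^ 2 + 1 / δ ^ 2 + (96 * Real.pi * d * W) ^ (2 * (d + 2)) :=
    ⟨_, rfl⟩
  have hp1 : (0 : ℝ) ≤ 144 * W ^ 2 := by positivity
  have hp2 : (0 : ℝ) ≤ 1 / δ ^ 2 := by positivity
  have hp3 : (0 : ℝ) ≤ (96 * Real.pi * d * W) ^ (2 * (d + 2)) := by positivity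
  have hA1 : 1 ≤ A := by rw [hA]; linarith only [hp1, hp2, hp3]
  -- the constant for the distances
  obtain ⟨Q, hQ⟩ : ∃ Q : ℝ, Q = 256 * Real.pi ^ 2 * (8 + K) / (c * W ^ 2) := ⟨_, rfl⟩
  have hQ0 : 0 < Q := by rw [hQ]; positivity
  obtain ⟨κ, hκ⟩ : ∃ κ : ℝ, κ = Real.sqrt (ε / (2 * Q)) := ⟨_, rfl⟩
  have hκ0 : 0 < κ := by rw [hκ]; exact Real.sqrt_pos.2 (by positivity)
  have hκ2 : κ ^ 2 * Q = ε / 2 := by
    rw [hκ, Real.sq_sqrt (by positivity)]
    field_simp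
  refine ⟨A, hA1, κ, hκ0, ?_⟩
  intro L _ hL t htA htL
  have hLr : (3 : ℝ) ≤ L := by exact_mod_cast hL
  have hL0 : (0 : ℝ) < L := by linarith
  have ht1 : 1 ≤ t := hA1.trans htA
  have ht0 : 0 < t := by linarith
  obtain ⟨T, hT⟩ : ∃ T : ℝ, T = Real.sqrt t := ⟨_, rfl⟩
  have hT0 : 0 < T := by rw [hT]; exact Real.sqrt_pos.2 ht0
  have hTT : T ^ 2 = t := by rw [hT]; exact Real.sq_sqrt ht0.le
  have hT1 : 1 ≤ T := by rw [hT]; exact Real.one_le_sqrt.2 ht1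
  have hTL : T ≤ Real.sqrt A₁ * L := by
    rw [hT]
    refine Real.sqrt_le_iff.2 ⟨by positivity, ?_⟩
    rw [mul_pow, Real.sq_sqrt (by linarith)]
    exact htL
  have hTW : 12 * W ≤ T := by
    rw [hT]
    refine Real.le_sqrt_of_sq_le ?_
    refine le_trans ?_ htA
    rw [hA]
    have h1 : (12 * W) ^ 2 = 144 * W ^ 2 := by ring
    rw [h1]
    linarith only [hp2, hp3]
  have hTδ : 1 ≤ δ * T := by
    have h1 : 1 / δ ≤ T := by
      rw [hT]
      refine Real.le_sqrt_of_sq_le ?_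
      refine le_trans ?_ htA
      rw [hA, one_div_pow]
      linarith only [hp1, hp3]
    rw [div_le_iff₀ hδ] at h1
    linarith only [h1]
  -- the scale rho
  have hd2 : (0 : ℝ) < (d : ℝ) + 2 := by positivity
  obtain ⟨ρ, hρ⟩ : ∃ ρ : ℝ, ρ = t ^ (1 / ((d : ℝ) + 2)) := ⟨_, rfl⟩
  have hρ0 : 0 < ρ := by rw [hρ]; exact Real.rpow_pos_of_pos ht0 _
  have hρ1 : 1 ≤ ρ := by rw [hρ]; exact Real.one_le_rpow ht1 (by positivity)
  have hρt : ρ ^ (d + 2) = t := by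
    rw [hρ, ← Real.rpow_natCast, ← Real.rpow_mul ht0.le]
    push_cast
    rw [one_div_mul_cancel hd2.ne', Real.rpow_one]
  have hρbig : (96 * Real.pi * d * W) ^ 2 ≤ ρ := by
    have h1 : ((96 * Real.pi * d * W) ^ 2) ^ (d + 2) ≤ ρ ^ (d + 2) := by
      rw [hρt, ← pow_mul]
      refine le_trans ?_ htA
      rw [hA]
      linarith only [hp1, hp2]
    exact le_of_pow_le_pow_left₀ (by omega) hρ0.le h1
  have hρT : (96 * Real.pi * d * W) * ρ ≤ T := by
    have h1 : ((96 * Real.pi * d * W) * ρ) ^ 2 ≤ T ^ 2 := by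
      rw [hTT, ← hρt, mul_pow]
      have h2 : ρ ^ (d + 2) = ρ ^ (d - 1) * ρ * ρ ^ 2 := by
        rw [← pow_succ, ← pow_add]
        congr 1
        omega
      rw [h2]
      have h3 : (1 : ℝ) ≤ ρ ^ (d - 1) := one_le_pow₀ hρ1
      have h4 : (96 * Real.pi * d * W) ^ 2 ≤ ρ ^ (d - 1) * ρ :=
        hρbig.trans (le_mul_of_one_le_left hρ0.le h3)
      exact mul_le_mul_of_nonneg_right h4 (by positivity)
    exact le_of_pow_le_pow_left₀ two_ne_zero hT0.le h1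
  have hπ3 : 3 ≤ Real.pi := Real.pi_gt_three.le
  have hπd : 3 ≤ Real.pi * d * W := by
    have h1 : 1 ≤ (d : ℝ) * W := by nlinarith only [hdr, hW1]
    nlinarith only [h1, hπ3]
  -- R
  obtain ⟨R, hR⟩ : ∃ R : ℕ, R = ⌈ρ⌉₊ := ⟨_, rfl⟩
  have hRρ : ρ ≤ R := by rw [hR]; exact Nat.le_ceil ρ
  have hR2 : (R : ℝ) ≤ 2 * ρ := by
    have := (Nat.ceil_lt_add_one hρ0.le).le
    rw [← hR] at this
    linarith only [this, hρ1]
  have hR1 : 1 ≤ R := by
    rw [hR]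
    exact Nat.one_le_ceil_iff.2 hρ0
  have hR1r : (1 : ℝ) ≤ R := by exact_mod_cast hR1
  have hRL : R ≤ L := by
    have h1 : 96 * Real.pi * d * W * ρ ≤ W * L := by
      refine hρT.trans (hTL.trans ?_)
      exact mul_le_mul_of_nonneg_right hWA hL0.le
    have h2 : (96 * Real.pi * d * ρ) * W ≤ L * W := by linarith only [h1]
    have h3 : 96 * Real.pi * d * ρ ≤ L := le_of_mul_le_mul_right h2 (by linarith only [hW1])
    have h4 : 2 * ρ ≤ 96 * Real.pi * d * ρ := by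
      refine mul_le_mul_of_nonneg_right ?_ hρ0.le
      nlinarith only [hπ3, hdr]
    exact_mod_cast hR2.trans (h4.trans h3)
  -- M
  obtain ⟨M, hM⟩ : ∃ M : ℕ, M = ⌊W * L / T⌋₊ := ⟨_, rfl⟩
  have hWLT : 1 ≤ W * L / T := by
    rw [le_div_iff₀ hT0, one_mul]
    exact hTL.trans (mul_le_mul_of_nonneg_right hWA hL0.le)
  have hM1 : 1 ≤ M := by
    rw [hM]
    exact (Nat.one_le_floor_iff _).2 hWLT
  have hMle : (M : ℝ) ≤ W * L / T := by rw [hM]; exact Nat.floor_le (by positivity)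
  have hMge : W * L / T ≤ M + 1 := by rw [hM]; exact (Nat.lt_floor_add_one _).le
  have hM1r : (1 : ℝ) ≤ M := by exact_mod_cast hM1
  have hMT : M * T ≤ W * L := by rwa [le_div_iff₀ hT0] at hMle
  have hMT2 : W * L ≤ 2 * M * T := by
    have h1 : W * L ≤ (M + 1) * T := by rwa [div_le_iff₀ hT0] at hMge
    nlinarith only [h1, hM1r, hT0]
  have h12 : 12 * M ≤ L := by
    have h1 : (12 * M : ℝ) * W ≤ L * W := by nlinarith only [hTW, hMT, hM1r]
    have h2 : (12 * M : ℝ) ≤ L := le_of_mul_le_mul_right h1 (by linarith only [hW1])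
    exact_mod_cast h2
  -- R'
  obtain ⟨R', hR'⟩ : ∃ R' : ℕ, R' = ⌊δ * T⌋₊ := ⟨_, rfl⟩
  have hR'1 : 1 ≤ R' := by
    rw [hR']
    exact (Nat.one_le_floor_iff _).2 hTδ
  have hR'1r : (1 : ℝ) ≤ R' := by exact_mod_cast hR'1
  have hR'L : R' ≤ L := by
    have h1 : (R' : ℝ) ≤ δ * T := by rw [hR']; exact Nat.floor_le (by positivity)
    have h2 : δ * T ≤ L := by
      calc δ * T ≤ δ * (Real.sqrt A₁ * L) := mul_le_mul_of_nonneg_left hTL hδ.le
        _ = (δ * Real.sqrt A₁) * L := by ring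
        _ ≤ 1 * L := mul_le_mul_of_nonneg_right hδA hL0.le
        _ = L := one_mul _
    exact_mod_cast h1.trans h2
  have hR'2 : δ * T ≤ 2 * R' := by
    have h1 : δ * T ≤ R' + 1 := by rw [hR']; exact (Nat.lt_floor_add_one _).le
    linarith only [h1, hR'1r]
  rw [← hT, ← hR']
  refine ⟨hR'1, hR'L, ?_⟩
  intro v v' hvv
  have hbox' : 0 < (box d L R').card := by
    rw [(t_NEAR d L R' hR'1 hR'L 0).1]
    positivity
  have hbox : 0 < (box d L R).card := by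
    rw [(t_NEAR d L R hR1 hRL 0).1]
    positivity
  refine (split2 (hDS _) ht0.le M R' hR'1 hR'L hbox' v v').trans ?_
  -- the high frequencies
  have hhigh : 4 * ((L : ℝ) / (2 * (R' * ((M : ℝ) + 1)))) ^ 2 ≤ ε / 4 := by
    have h1 : δ * W * L ≤ 2 * (R' * ((M : ℝ) + 1)) := by
      have h2 : W * L ≤ (M + 1) * T := by rwa [div_le_iff₀ hT0] at hMge
      have h3 : δ * (W * L) ≤ δ * ((M + 1) * T) := mul_le_mul_of_nonneg_left h2 hδ.le
      have h4 : (M + 1) * (δ * T) ≤ (M + 1) * (2 * R') :=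
        mul_le_mul_of_nonneg_left hR'2 (by positivity)
      linarith only [h2, h3, h4]
    have h5 : (L : ℝ) / (2 * (R' * ((M : ℝ) + 1))) ≤ Real.sqrt ε / 4 := by
      rw [div_le_iff₀ (by positivity)]
      have h6 : Real.sqrt ε / 4 * (δ * W * L) ≤ Real.sqrt ε / 4 * (2 * (R' * ((M : ℝ) + 1))) :=
        mul_le_mul_of_nonneg_left h1 (by positivity)
      have h7 : (L : ℝ) ≤ Real.sqrt ε / 4 * (δ * W * L) := by
        have : Real.sqrt ε / 4 * (δ * W * L) = (W * δ * Real.sqrt ε) / 4 * L := by ring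
        rw [this]
        nlinarith only [hWδ, hL0]
      linarith only [h6, h7]
    have h8 := pow_le_pow_left₀ (by positivity) h5 2
    rw [div_pow (Real.sqrt ε), Real.sq_sqrt hε.le] at h8
    linarith only [h8]
  -- the low frequencies
  obtain ⟨lm, hlm⟩ : ∃ lm : ℝ, lm = 12 * Real.pi * d * W * ρ / T := ⟨_, rfl⟩
  obtain ⟨η, hη⟩ : ∃ η : ℝ, η = 3 * C * d * ρ / T := ⟨_, rfl⟩
  obtain ⟨q, hq⟩ : ∃ q : ℝ, q = (1 + Real.sqrt A₁) / T := ⟨_, rfl⟩
  have hlm0 : 0 ≤ lm := by rw [hlm]; positivity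
  have hη0 : 0 ≤ η := by rw [hη]; positivity
  have hq0 : 0 ≤ q := by rw [hq]; positivity
  have hlow' := low_sum2 (d := d) (L := L) (hDS _) hL ht0.le M (box d L R) η lm q hη0 hlm0 hq0
    hbox
    (by
      intro v x hx y hy
      have h1 := hdist L hL (t / 2) (by positivity) (v + x) (v + y)
      refine h1.trans ?_
      have h2 : ((tdist (v + x) (v + y) : ℕ) : ℝ) ≤ d * (2 * ρ) := by
        have h3 : ((tdist (v + x) (v + y) : ℕ) : ℝ) ≤ ((d * R : ℕ) : ℝ) := by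
          exact_mod_cast tdist_box R v x y hx hy
        push_cast at h3
        refine h3.trans ?_
        exact mul_le_mul_of_nonneg_left hR2 (by positivity)
      have h4 : 2 / 3 * T ≤ Real.sqrt (t / 2) := by
        refine Real.le_sqrt_of_sq_le ?_
        rw [mul_pow, hTT]
        linarith only [ht0]
      calc C * (tdist (v + x) (v + y) : ℝ) / Real.sqrt (t / 2) ≤ C * (d * (2 * ρ)) / (2 / 3 * T) := by
            refine div_le_div₀ (by positivity) (mul_le_mul_of_nonneg_left h2 hC.le)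
              (by positivity) h4
        _ = η := by rw [hη]; field_simp)
    (by
      intro x y
      have h1 := qq_torus (d := d) hL ht0 x y
      have h2 : Pool.Agent.Y998.ST.qq (nnRate d L) t x y = hop (nnRate d L) t x y := rfl
      rw [h2] at h1
      refine h1.trans ?_
      rw [← hT]
      have h3 : (1 : ℝ) / L ≤ Real.sqrt A₁ / T := by
        rw [div_le_div_iff₀ hL0 hT0]
        linarith only [hTL]
      have h4 : (1 : ℝ) / L + 1 / T ≤ q := by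
        rw [hq, add_div]
        linarith only [h3]
      have h5 : (1 : ℝ) / L + 1 / T ≤ 1 := by
        have h6 : (1 : ℝ) / L ≤ 1 / 3 := one_div_le_one_div_of_le (by norm_num) hLr
        have h7 : (1 : ℝ) / T ≤ 1 / 12 :=
          one_div_le_one_div_of_le (by norm_num) (by linarith only [hTW, hW1])
        linarith only [h6, h7]
      exact (pow_le_of_le_one (by positivity) h5 (by omega)).trans h4)
    (by
      rw [hlm, div_le_iff₀ hT0]
      linarith only [hρT])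
    (by
      intro k hk b hb
      refine ((t_NEAR d L R hR1 hRL k).2 b hb).trans ?_
      unfold win at hk
      simp only [Finset.mem_filter, Finset.mem_univ, true_and] at hk
      have h1 : ∀ i ∈ (Finset.univ : Finset (Fin d)),
          2 * Real.pi * |((k i).valMinAbs : ℝ)| * R / L ≤ 12 * Real.pi * W * ρ / T := by
        intro i _
        have h2 : |((k i).valMinAbs : ℝ)| ≤ 3 * M := by
          have h3 : (((k i).valMinAbs.natAbs : ℕ) : ℝ) ≤ ((3 * M : ℕ) : ℝ) := by exact_mod_cast hk i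
          rw [Nat.cast_natAbs] at h3
          push_cast at h3
          exact h3
        rw [div_le_div_iff₀ hL0 hT0]
        calc 2 * Real.pi * |((k i).valMinAbs : ℝ)| * R * T
            ≤ 2 * Real.pi * (3 * M) * (2 * ρ) * T := by gcongr
          _ = 12 * Real.pi * ρ * (M * T) := by ring
          _ ≤ 12 * Real.pi * ρ * (W * L) := by gcongr
          _ = 12 * Real.pi * W * ρ * L := by ring
      refine (Finset.sum_le_card_nsmul _ _ _ h1).trans (le_of_eq ?_)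
      rw [Finset.card_univ, Fintype.card_fin, nsmul_eq_mul, hlm]
      ring)
    c (hlow L M t ht0 hM1 h12 (by rw [← hT]; exact hMT))
  -- size of s
  have hcard : ((box d L R).card : ℝ) = (R : ℝ) ^ d := by
    rw [(t_NEAR d L R hR1 hRL 0).1]
    push_cast
    rfl
  have hρd : ρ ^ 2 / T ^ 2 = 1 / ρ ^ d := by
    rw [hTT, ← hρt, pow_add]
    field_simp
  have hs : 8 / ((box d L R).card : ℝ) + 3 * lm ^ 2 + η ^ 2 + 16 * lm * q ≤ (8 + K) / ρ ^ d := by
    have h1 : 8 / ((box d L R).card : ℝ) ≤ 8 * (1 / ρ ^ d) := by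
      rw [hcard, mul_one_div]
      exact div_le_div_of_nonneg_left (by norm_num) (by positivity)
        (pow_le_pow_left₀ hρ0.le hRρ d)
    have h2 : 3 * lm ^ 2 = 3 * (12 * Real.pi * d * W) ^ 2 * (ρ ^ 2 / T ^ 2) := by
      rw [hlm]
      field_simp
    have h3 : η ^ 2 = 9 * C ^ 2 * d ^ 2 * (ρ ^ 2 / T ^ 2) := by
      rw [hη]
      field_simp
      ring
    have h4 : 16 * lm * q ≤ 16 * (12 * Real.pi * d * W) * (1 + Real.sqrt A₁) * (ρ ^ 2 / T ^ 2) := by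
      have h5 : 16 * lm * q = 16 * (12 * Real.pi * d * W) * (1 + Real.sqrt A₁) * (ρ / T ^ 2) := by
        rw [hlm, hq]
        field_simp
      rw [h5]
      refine mul_le_mul_of_nonneg_left ?_ (by positivity)
      refine div_le_div_of_nonneg_right ?_ (by positivity)
      nlinarith only [hρ1]
    rw [h2, h3]
    rw [hρd] at h4 ⊢
    have h6 : (8 + K) / ρ ^ d = 8 * (1 / ρ ^ d) + K * (1 / ρ ^ d) := by ring
    rw [h6, hK]
    linarith only [h1, h4]
  -- conclusion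
  have hρL : ρ ^ d * t = (t ^ (((d : ℝ) + 1) / (d + 2))) ^ 2 := by
    have h5 : t ^ (((d : ℝ) + 1) / (d + 2)) = ρ ^ (d + 1) := by
      rw [hρ, ← Real.rpow_natCast, ← Real.rpow_mul ht0.le]
      congr 1
      push_cast
      field_simp
    rw [h5, ← pow_mul]
    have e9 : ρ ^ d * t = ρ ^ d * ρ ^ (d + 2) := by rw [hρt]
    rw [e9, ← pow_add]
    congr 1
    ring
  obtain ⟨S, hS⟩ : ∃ S : ℝ, S = ∑ θ ∈ win d L M, (nrm θ : ℝ) ^ 2 * cc d L t θ := ⟨_, rfl⟩
  rw [← hS] at hlow' ⊢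
  have hcc := cc_nonneg (d := d) (L := L) (hDS _) ht0.le
  have hS0 : 0 ≤ S := by
    rw [hS]
    exact Finset.sum_nonneg fun k _ => mul_nonneg (sq_nonneg _) (hcc k)
  obtain ⟨D, hD⟩ : ∃ D : ℝ, D = (nrm (v - v') : ℝ) := ⟨_, rfl⟩
  have hD0 : 0 ≤ D := by rw [hD]; positivity
  rw [← hD] at hvv ⊢
  have h6 : S ≤ 64 * (8 + K) * (L : ℝ) ^ 2 / (c * W ^ 2 * (ρ ^ d * t)) := by
    have h1 : c * (t * M / (L : ℝ) ^ 2) ^ 2 * S ≤ 16 * ((8 + K) / ρ ^ d) :=
      hlow'.trans (mul_le_mul_of_nonneg_left hs (by norm_num))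
    have h2 : W ^ 2 * t / (4 * (L : ℝ) ^ 2) ≤ (t * M / (L : ℝ) ^ 2) ^ 2 := by
      have h3 : W * T / (2 * L) ≤ t * M / (L : ℝ) ^ 2 := by
        rw [div_le_div_iff₀ (by positivity) (by positivity), ← hTT]
        have := mul_le_mul_of_nonneg_right hMT2 (by positivity : (0 : ℝ) ≤ T * L)
        linarith only [this]
      have h4 := pow_le_pow_left₀ (by positivity) h3 2
      refine le_trans (le_of_eq ?_) h4
      rw [div_pow, mul_pow, mul_pow, hTT]
      norm_num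
    have h5 : c * (W ^ 2 * t / (4 * (L : ℝ) ^ 2)) * S ≤ 16 * ((8 + K) / ρ ^ d) := by
      refine le_trans ?_ h1
      exact mul_le_mul_of_nonneg_right (mul_le_mul_of_nonneg_left h2 hc.le) hS0
    rw [le_div_iff₀ (by positivity)]
    have h7 : c * (W ^ 2 * t / (4 * (L : ℝ) ^ 2)) * S * (4 * (L : ℝ) ^ 2 * ρ ^ d) ≤
        16 * ((8 + K) / ρ ^ d) * (4 * (L : ℝ) ^ 2 * ρ ^ d) :=
      mul_le_mul_of_nonneg_right h5 (by positivity)
    have e1 : c * (W ^ 2 * t / (4 * (L : ℝ) ^ 2)) * S * (4 * (L : ℝ) ^ 2 * ρ ^ d) =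
        S * (c * W ^ 2 * (ρ ^ d * t)) := by
      field_simp
    have e2 : 16 * ((8 + K) / ρ ^ d) * (4 * (L : ℝ) ^ 2 * ρ ^ d) =
        64 * (8 + K) * (L : ℝ) ^ 2 := by
      field_simp
      ring
    rwa [e1, e2] at h7
  have hfin : (2 * Real.pi * D / L) ^ 2 * S ≤ ε / 2 := by
    obtain ⟨X, hX⟩ : ∃ X : ℝ, X = t ^ (((d : ℝ) + 1) / (d + 2)) := ⟨_, rfl⟩
    have hX0 : 0 < X := by rw [hX]; exact Real.rpow_pos_of_pos ht0 _
    rw [← hX] at hvv hρL
    rw [hρL] at h6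
    have h7 : (2 * Real.pi * D / L) ^ 2 * S ≤
        (2 * Real.pi * D / L) ^ 2 * (64 * (8 + K) * (L : ℝ) ^ 2 / (c * W ^ 2 * X ^ 2)) :=
      mul_le_mul_of_nonneg_left h6 (sq_nonneg _)
    have e3 : (2 * Real.pi * D / L) ^ 2 * (64 * (8 + K) * (L : ℝ) ^ 2 / (c * W ^ 2 * X ^ 2)) =
        (D / X) ^ 2 * Q := by
      rw [hQ]
      field_simp
      ring
    have h8 : D / X ≤ κ := by
      rw [div_le_iff₀ hX0]
      exact hvv
    have h9 : (D / X) ^ 2 ≤ κ ^ 2 := pow_le_pow_left₀ (by positivity) h8 2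
    have h10 := mul_le_mul_of_nonneg_right h9 hQ0.le
    rw [hκ2] at h10
    rw [e3] at h7
    exact h7.trans h10
  linarith only [hfin, hhigh, hε]

end Pool.Agent.R517.PDL
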