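import Pool.Agent.R517.PDL.L3
import Pool.Agent.R517.PDS.Fin5

/-!
# The probability that several points at moderate distances are in one cycle
-/

set_option autoImplicit false

namespace Pool.Agent.R517.PDL

open Finset Equiv
open Pool.Agent.Y998.ST (stirLaw stirExp hop nnRate lam exp_const exp_nonneg nn_nonneg nn_symm
  nn_diag law_nonneg qq_torus)
open Pool.Agent.Y998.CN (law_sum law_conj same_conj nn_trans)
open Pool.Agent.Y998.LP (NN bfrac tdist NN_nonneg NN_one law_inv)
open Pool.Agent.TH268.PD (ret ret_spec)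
open Pool.Agent.R517.PDS

section torus

variable {d L : ℕ} [NeZero L]

theorem dens_dev2 (g : Perm (Fin d → ZMod L)) (B : Finset (Fin d → ZMod L))
    (v v' x : Fin d → ZMod L) :
    (dens g (B.image (fun b => v + b)) x - dens g (B.image (fun b => v' + b)) x) ^ 2 ≤
      DR g Finset.univ (dif B v v') := by
  classical
  obtain ⟨c, hc⟩ := Win.exists_rep g
  rw [Win.DR_eq g c hc]
  obtain ⟨U, hU⟩ : ∃ U : (Fin d → ZMod L) → ℝ, U = fun γ => ∑ y, if c y = γ then
      dif B v v' y else 0 := ⟨_, rfl⟩
  have hcard : ∀ w : Fin d → ZMod L, (B.image (fun b => w + b)).card = B.card := fun w =>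
    Finset.card_image_of_injective B fun a b h => add_left_cancel h
  have h1 : ∀ w : Fin d → ZMod L, dens g (B.image (fun b => w + b)) x =
      ∑ y, if c y = c x then (if y ∈ B.image (fun b => w + b) then 1 / (B.card : ℝ) else 0)
        else 0 := by
    intro w
    unfold PDS.dens
    rw [Finset.sum_div, ← Finset.sum_subset (Finset.subset_univ (B.image (fun b => w + b)))]
    · refine Finset.sum_congr rfl fun y hy => ?_
      by_cases h : g.SameCycle x y
      · rw [if_pos h, if_pos ((hc x y).1 h).symm, if_pos hy, hcard]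
      · rw [if_neg h, if_neg (fun h' => h ((hc x y).2 h'.symm)), zero_div]
    · intro y _ hy
      rw [if_neg hy, ite_self]
  have e1 : dens g (B.image (fun b => v + b)) x - dens g (B.image (fun b => v' + b)) x =
      U (c x) := by
    rw [h1, h1, hU, ← Finset.sum_sub_distrib]
    refine Finset.sum_congr rfl fun y _ => ?_
    unfold dif
    split_ifs <;> ring
  have e2 : ∀ γ, (∑ y, if c y = γ then dif B v v' y else 0) ^ 2 = U γ ^ 2 := by
    intro γ
    rw [hU]
  rw [e1, Finset.sum_congr rfl fun γ _ => e2 γ]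
  exact Finset.single_le_sum (f := fun γ => U γ ^ 2) (fun γ _ => sq_nonneg _)
    (Finset.mem_univ (c x))

theorem dens_conj2 (g : Perm (Fin d → ZMod L)) (B : Finset (Fin d → ZMod L))
    (x : Fin d → ZMod L) :
    dens (Equiv.addLeft x * g * (Equiv.addLeft x)⁻¹) (B.image (fun b => x + b)) x =
      dens g B 0 := by
  classical
  unfold PDS.dens
  rw [Finset.card_image_of_injective B fun a b h => add_left_cancel h,
    Finset.sum_image (fun a _ b _ h => add_left_cancel h)]
  congr 1
  refine Finset.sum_congr rfl fun y _ => ?_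
  have h := same_conj (Equiv.addLeft x) g 0 y
  simp only [Equiv.coe_addLeft, add_zero] at h
  simp only [h]

/-- mean density of the cycle of a point near the point -/
theorem mm_loc (t : ℝ) (n : ℕ) (B : Finset (Fin d → ZMod L)) (x : Fin d → ZMod L) :
    stirExp (nnRate d L) t (fun g => dens g (B.image (fun b => x + b)) x ^ n) =
      stirExp (nnRate d L) t (fun g => dens g B (0 : Fin d → ZMod L) ^ n) := by
  unfold stirExp
  rw [← Equiv.sum_comp (MulAut.conj (Equiv.addLeft x)).toEquiv]
  refine Finset.sum_congr rfl fun g _ => ?_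
  have e1 : (MulAut.conj (Equiv.addLeft x)).toEquiv g =
    Equiv.addLeft x * g * (Equiv.addLeft x)⁻¹ := rfl
  rw [e1, law_conj (Equiv.addLeft x) (fun a b => by
    simp only [Equiv.coe_addLeft]
    rw [add_comm x a, add_comm x b]
    exact nn_trans a b x)]
  beta_reduce
  rw [dens_conj2]

theorem QQ_mean2 {t : ℝ} (ht : 0 ≤ t) (B : Finset (Fin d → ZMod L)) (hB : 0 < B.card)
    {n : ℕ} (x : Fin d → ZMod L) (y : Fin n → Fin d → ZMod L) (h0 : ∀ i, y i ≠ x)
    (h1 : ∀ i j, i ≠ j → y i ≠ y j) (η θ : ℝ) (hη0 : 0 ≤ η) (hθ : 0 < θ)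
    (hη : ∀ v, ∀ z ∈ B, NN (nnRate d L) t (swap v (v + z)) ≤ η)
    (hh : ∀ i, stirExp (nnRate d L) t (fun g => DR g Finset.univ (dif B (y i) x)) ≤ θ ^ 2) :
    |QQ (nnRate d L) t x y -
      stirExp (nnRate d L) t (fun g => dens g B (0 : Fin d → ZMod L) ^ n)| ≤
      n * (2 * η) + (n + 2 * (n : ℝ) ^ 2) / B.card + n * θ := by
  classical
  have hb : (0 : ℝ) < B.card := by exact_mod_cast hB
  have hbn : (0 : ℝ) < (B.card : ℝ) ^ n := by positivity
  obtain ⟨P, hP⟩ : ∃ P : Finset (Fin n → Fin d → ZMod L), P = Fintype.piFinset fun _ => B :=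
    ⟨_, rfl⟩
  have hPc : (P.card : ℝ) = (B.card : ℝ) ^ n := by
    rw [hP]
    simp [Fintype.card_piFinset]
  -- the mean over the shifts
  obtain ⟨Av, hAv⟩ : ∃ Av : ℝ, Av = ∑ z ∈ P, QQ (nnRate d L) t x (fun i => y i + z i) /
    (B.card : ℝ) ^ n := ⟨_, rfl⟩
  have hA : Av = stirExp (nnRate d L) t
      (fun g => ∏ i, dens g (B.image (fun b => y i + b)) x) := by
    have e1 : (fun g : Perm (Fin d → ZMod L) => ∏ i, dens g (B.image (fun b => y i + b)) x) =
        fun g => ∑ z ∈ P, 1 / (B.card : ℝ) ^ n * II g x (fun i => y i + z i) := by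
      funext g
      rw [II_mean, hP]
      exact Finset.sum_congr rfl fun z _ => by ring
    rw [e1, stirExp_sum, hAv]
    refine Finset.sum_congr rfl fun z _ => ?_
    rw [stirExp_smul]
    unfold QQ
    ring
  -- step 1
  have s1 : |QQ (nnRate d L) t x y - Av| ≤ n * (2 * η) + (n + 2 * (n : ℝ) ^ 2) / B.card := by
    have e1 : QQ (nnRate d L) t x y - Av =
        ∑ z ∈ P, (QQ (nnRate d L) t x y - QQ (nnRate d L) t x (fun i => y i + z i)) /
          (B.card : ℝ) ^ n := by
      rw [← Finset.sum_div, Finset.sum_sub_distrib, Finset.sum_const, nsmul_eq_mul, hPc, hAv,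
        ← Finset.sum_div]
      field_simp
    rw [e1]
    refine (Finset.abs_sum_le_sum_abs _ _).trans ?_
    have hpt : ∀ z ∈ P, |(QQ (nnRate d L) t x y - QQ (nnRate d L) t x (fun i => y i + z i)) /
        (B.card : ℝ) ^ n| ≤ (n * (2 * η) + (∑ i, if y i + z i = x then (1 : ℝ) else 0) +
          (∑ i, ∑ j, if i ≠ j ∧ y i + z i = y j + z j then (1 : ℝ) else 0) +
          (∑ i, ∑ j, if i ≠ j ∧ y i + z i = y j then (1 : ℝ) else 0)) / (B.card : ℝ) ^ n := by
      intro z hz
      rw [abs_div, abs_of_pos hbn]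
      refine div_le_div_of_nonneg_right ?_ hbn.le
      have n1 : 0 ≤ ∑ i, if y i + z i = x then (1 : ℝ) else 0 :=
        Finset.sum_nonneg fun i _ => by split_ifs <;> norm_num
      have n2' : ∀ i, 0 ≤ ∑ j, if i ≠ j ∧ y i + z i = y j + z j then (1 : ℝ) else 0 := fun i =>
        Finset.sum_nonneg fun j _ => by split_ifs <;> norm_num
      have n2 : 0 ≤ ∑ i, ∑ j, if i ≠ j ∧ y i + z i = y j + z j then (1 : ℝ) else 0 :=
        Finset.sum_nonneg fun i _ => n2' i
      have n3' : ∀ i, 0 ≤ ∑ j, if i ≠ j ∧ y i + z i = y j then (1 : ℝ) else 0 := fun i =>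
        Finset.sum_nonneg fun j _ => by split_ifs <;> norm_num
      have n3 : 0 ≤ ∑ i, ∑ j, if i ≠ j ∧ y i + z i = y j then (1 : ℝ) else 0 :=
        Finset.sum_nonneg fun i _ => n3' i
      have n0 : 0 ≤ (n : ℝ) * (2 * η) := by positivity
      have q1 := QQ_mem (J := nnRate d L) nn_nonneg ht x y
      have q2 := QQ_mem (J := nnRate d L) nn_nonneg ht x (fun i => y i + z i)
      have hle1 : |QQ (nnRate d L) t x y - QQ (nnRate d L) t x (fun i => y i + z i)| ≤ 1 :=
        abs_le.2 ⟨by linarith [q1.1, q2.2], by linarith [q1.2, q2.1]⟩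
      by_cases c1 : ∃ i, y i + z i = x
      · obtain ⟨i, hi⟩ := c1
        have := Finset.single_le_sum (f := fun i => if y i + z i = x then (1 : ℝ) else 0)
          (fun i _ => by split_ifs <;> norm_num) (Finset.mem_univ i)
        rw [if_pos hi] at this
        linarith
      by_cases c2 : ∃ i j, i ≠ j ∧ y i + z i = y j + z j
      · obtain ⟨i, j, hij⟩ := c2
        have a1 := Finset.single_le_sum
          (f := fun j => if i ≠ j ∧ y i + z i = y j + z j then (1 : ℝ) else 0)
          (fun i _ => by split_ifs <;> norm_num) (Finset.mem_univ j)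
        have a2 := Finset.single_le_sum
          (f := fun i => ∑ j, if i ≠ j ∧ y i + z i = y j + z j then (1 : ℝ) else 0)
          (fun i _ => n2' i) (Finset.mem_univ i)
        rw [if_pos hij] at a1
        linarith
      by_cases c3 : ∃ i j, i ≠ j ∧ y i + z i = y j
      · obtain ⟨i, j, hij⟩ := c3
        have a1 := Finset.single_le_sum
          (f := fun j => if i ≠ j ∧ y i + z i = y j then (1 : ℝ) else 0)
          (fun i _ => by split_ifs <;> norm_num) (Finset.mem_univ j)
        have a2 := Finset.single_le_sum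
          (f := fun i => ∑ j, if i ≠ j ∧ y i + z i = y j then (1 : ℝ) else 0)
          (fun i _ => n3' i) (Finset.mem_univ i)
        rw [if_pos hij] at a1
        linarith
      have hz' : ∀ i, z i ∈ B := by
        rw [hP, Fintype.mem_piFinset] at hz
        exact hz
      have := QQ_move (nnRate d L) t x y (fun i => y i + z i) η h0 (fun i h => c1 ⟨i, h⟩) h1
        (fun i j hij h => c2 ⟨i, j, hij, h⟩) (fun i j hij h => c3 ⟨i, j, hij, h⟩)
        (fun i => hη (y i) (z i) (hz' i))
      linarith
    refine (Finset.sum_le_sum hpt).trans ?_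
    rw [← Finset.sum_div, div_le_iff₀ hbn, Finset.sum_add_distrib, Finset.sum_add_distrib,
      Finset.sum_add_distrib, Finset.sum_const, nsmul_eq_mul, hPc]
    have t1 : ∑ z ∈ P, ∑ i, (if y i + z i = x then (1 : ℝ) else 0) ≤
        n * ((B.card : ℝ) ^ n * (1 / B.card)) := by
      rw [Finset.sum_comm]
      refine (Finset.sum_le_card_nsmul _ _ ((B.card : ℝ) ^ n * (1 / B.card)) fun i _ => ?_).trans
        (le_of_eq ?_)
      · rw [hP]
        refine fib' B hB i (fun z => y i + z i = x) ?_
        intro z z' hz hz' _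
        exact add_left_cancel (hz.trans hz'.symm)
      · rw [Finset.card_univ, Fintype.card_fin, nsmul_eq_mul]
    have t2 : ∑ z ∈ P, ∑ i, ∑ j, (if i ≠ j ∧ y i + z i = y j + z j then (1 : ℝ) else 0) ≤
        n * (n * ((B.card : ℝ) ^ n * (1 / B.card))) := by
      rw [Finset.sum_comm]
      refine (Finset.sum_le_card_nsmul _ _ (n * ((B.card : ℝ) ^ n * (1 / B.card)))
        fun i _ => ?_).trans (le_of_eq ?_)
      · rw [Finset.sum_comm]
        refine (Finset.sum_le_card_nsmul _ _ ((B.card : ℝ) ^ n * (1 / B.card)) fun j _ => ?_).trans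
          (le_of_eq ?_)
        · rw [hP]
          refine fib' B hB i (fun z => i ≠ j ∧ y i + z i = y j + z j) ?_
          intro z z' hz hz' ho
          have h2 := ho j (Ne.symm hz.1)
          have h3 := hz.2
          rw [h2, ← hz'.2] at h3
          exact add_left_cancel h3
        · rw [Finset.card_univ, Fintype.card_fin, nsmul_eq_mul]
      · rw [Finset.card_univ, Fintype.card_fin, nsmul_eq_mul]
    have t3 : ∑ z ∈ P, ∑ i, ∑ j, (if i ≠ j ∧ y i + z i = y j then (1 : ℝ) else 0) ≤
        n * (n * ((B.card : ℝ) ^ n * (1 / B.card))) := by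
      rw [Finset.sum_comm]
      refine (Finset.sum_le_card_nsmul _ _ (n * ((B.card : ℝ) ^ n * (1 / B.card)))
        fun i _ => ?_).trans (le_of_eq ?_)
      · rw [Finset.sum_comm]
        refine (Finset.sum_le_card_nsmul _ _ ((B.card : ℝ) ^ n * (1 / B.card)) fun j _ => ?_).trans
          (le_of_eq ?_)
        · rw [hP]
          refine fib' B hB i (fun z => i ≠ j ∧ y i + z i = y j) ?_
          intro z z' hz hz' _
          exact add_left_cancel (hz.2.trans hz'.2.symm)
        · rw [Finset.card_univ, Fintype.card_fin, nsmul_eq_mul]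
      · rw [Finset.card_univ, Fintype.card_fin, nsmul_eq_mul]
    have e5 : ((n : ℝ) * (2 * η) + (n + 2 * (n : ℝ) ^ 2) / B.card) * (B.card : ℝ) ^ n =
        (B.card : ℝ) ^ n * (n * (2 * η)) + n * ((B.card : ℝ) ^ n * (1 / B.card)) +
        n * (n * ((B.card : ℝ) ^ n * (1 / B.card))) +
        n * (n * ((B.card : ℝ) ^ n * (1 / B.card))) := by
      ring
    rw [e5]
    linarith
  -- step 2
  have s2 : |Av - stirExp (nnRate d L) t (fun g => dens g (B.image (fun b => x + b)) x ^ n)| ≤
      n * θ := by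
    have e1 : Av - stirExp (nnRate d L) t (fun g => dens g (B.image (fun b => x + b)) x ^ n) =
        ∑ g, stirLaw (nnRate d L) t g * (∏ i, dens g (B.image (fun b => y i + b)) x -
          dens g (B.image (fun b => x + b)) x ^ n) := by
      rw [hA]
      unfold stirExp
      rw [← Finset.sum_sub_distrib]
      exact Finset.sum_congr rfl fun g _ => by ring
    rw [e1]
    refine (Finset.abs_sum_le_sum_abs _ _).trans ?_
    have hpt : ∀ g : Perm (Fin d → ZMod L), |stirLaw (nnRate d L) t g *
        (∏ i, dens g (B.image (fun b => y i + b)) x -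
          dens g (B.image (fun b => x + b)) x ^ n)| ≤
        stirLaw (nnRate d L) t g * ∑ i : Fin n, (θ / 2 + 1 / (2 * θ) *
          DR g Finset.univ (dif B (y i) x)) := by
      intro g
      have hl := law_nonneg (J := nnRate d L) nn_nonneg ht g
      rw [abs_mul, abs_of_nonneg hl]
      refine mul_le_mul_of_nonneg_left ?_ hl
      refine (prod_dev _ _ (fun i => dens_mem _ _ _) (dens_mem _ _ _)).trans ?_
      refine Finset.sum_le_sum fun i _ => ?_
      have h2 := dens_dev2 g B (y i) x x
      obtain ⟨D, hD⟩ : ∃ D : ℝ, D = DR g Finset.univ (dif B (y i) x) := ⟨_, rfl⟩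
      rw [← hD] at h2 ⊢
      obtain ⟨X, hX⟩ : ∃ X : ℝ, X = dens g (B.image (fun b => y i + b)) x -
        dens g (B.image (fun b => x + b)) x := ⟨_, rfl⟩
      rw [← hX] at h2 ⊢
      have h3 : θ / 2 + 1 / (2 * θ) * D = (θ ^ 2 + D) / (2 * θ) := by
        field_simp
      rw [h3, le_div_iff₀ (by positivity)]
      have h4 := sq_nonneg (|X| - θ)
      have h5 : |X| ^ 2 = X ^ 2 := sq_abs X
      nlinarith
    refine (Finset.sum_le_sum fun g _ => hpt g).trans ?_
    have e2 : ∑ g, stirLaw (nnRate d L) t g * ∑ i : Fin n, (θ / 2 + 1 / (2 * θ) *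
          DR g Finset.univ (dif B (y i) x)) =
        ∑ i : Fin n, (θ / 2 + 1 / (2 * θ) * stirExp (nnRate d L) t (fun g =>
          DR g Finset.univ (dif B (y i) x))) := by
      have e3 := stirExp_sum (nnRate d L) t Finset.univ (fun (i : Fin n)
        (g : Perm (Fin d → ZMod L)) => (θ / 2 + 1 / (2 * θ) *
          DR g Finset.univ (dif B (y i) x)))
      refine e3.trans (Finset.sum_congr rfl fun i _ => ?_)
      rw [stirExp_add, stirExp_smul, exp_const]
    rw [e2]
    refine (Finset.sum_le_card_nsmul _ _ θ fun i _ => ?_).trans (le_of_eq ?_)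
    · have h6 : 1 / (2 * θ) * stirExp (nnRate d L) t (fun g => DR g Finset.univ (dif B (y i) x)) ≤
          1 / (2 * θ) * θ ^ 2 := mul_le_mul_of_nonneg_left (hh i) (by positivity)
      have h7 : 1 / (2 * θ) * θ ^ 2 = θ / 2 := by
        field_simp
      linarith
    · rw [Finset.card_univ, Fintype.card_fin, nsmul_eq_mul]
  have h8 := abs_sub_le (QQ (nnRate d L) t x y) Av
    (stirExp (nnRate d L) t (fun g => dens g B (0 : Fin d → ZMod L) ^ n))
  rw [mm_loc t n B x] at s2
  linarith

end torus

end Pool.Agent.R517.PDL
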