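import Pool.Agent.R517.PDL.L4

/-!
# The probability that several points at distance `O(t ^ ((d + 1) / (d + 2)))` are in one cycle
-/

set_option autoImplicit false

namespace Pool.Agent.R517.PDL

open Finset Equiv
open Pool.Agent.Y998.ST (stirLaw stirExp hop nnRate lam exp_const exp_nonneg nn_nonneg nn_symm
  nn_diag law_nonneg qq_torus)
open Pool.Agent.Y998.LP (NN bfrac tdist NN_nonneg NN_one law_inv)
open Pool.Agent.R517.PDS

theorem tdist_nrm {d L : ℕ} [NeZero L] (x y : Fin d → ZMod L) : tdist x y = nrm (x - y) := rfl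

theorem kloc (d : ℕ) (hd : 1 ≤ d) (K : ℕ) (hK : 1 ≤ K) (ε : ℝ) (hε : 0 < ε) :
    ∃ T₀ : ℝ, 1 ≤ T₀ ∧ ∃ κ : ℝ, 0 < κ ∧ κ ≤ 1 ∧ ∀ (L : ℕ) [NeZero L], 3 ≤ L → K ≤ L → ∀ t : ℝ,
      T₀ ≤ t → ∀ n : ℕ, n + 1 ≤ K → ∀ (x : Fin d → ZMod L) (y : Fin n → Fin d → ZMod L),
      (∀ i, y i ≠ x) → (∀ i j, i ≠ j → y i ≠ y j) →
      (∀ i, (nrm (y i - x) : ℝ) ≤ κ * t ^ (((d : ℝ) + 1) / (d + 2))) →
      |QQ (nnRate d L) t x y - 1 / ((n : ℝ) + 1)| ≤ ε := by
  classical
  obtain ⟨C, hC, hdist⟩ := Pool.Agent.Y998.LQ.t_dist d hd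
  have hd1 : (1 : ℝ) ≤ d := by exact_mod_cast hd
  have hK1 : (1 : ℝ) ≤ K := by exact_mod_cast hK
  obtain ⟨A₁, hA₁⟩ : ∃ A₁ : ℝ, A₁ = 1 + (C * d * K / ε) ^ 2 := ⟨_, rfl⟩
  have hsq1 : 0 ≤ (C * d * K / ε) ^ 2 := sq_nonneg _
  have hA₁1 : 1 ≤ A₁ := by linarith
  have hsA : 0 < Real.sqrt A₁ := Real.sqrt_pos.2 (by linarith)
  obtain ⟨δ, hδ⟩ : ∃ δ : ℝ, δ = min (1 / Real.sqrt A₁) (ε / (20 * K * (C * d))) := ⟨_, rfl⟩
  have hδ0 : 0 < δ := by rw [hδ]; exact lt_min (by positivity) (by positivity)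
  have hδ1 : δ * Real.sqrt A₁ ≤ 1 := by
    have h1 : δ ≤ 1 / Real.sqrt A₁ := by rw [hδ]; exact min_le_left _ _
    rwa [le_div_iff₀ hsA] at h1
  have hδ2 : 20 * K * (C * d * δ) ≤ ε := by
    have h1 : δ ≤ ε / (20 * K * (C * d)) := by rw [hδ]; exact min_le_right _ _
    rw [le_div_iff₀ (by positivity)] at h1
    linarith
  obtain ⟨θ, hθ⟩ : ∃ θ : ℝ, θ = ε / (8 * K) := ⟨_, rfl⟩
  have hθ0 : 0 < θ := by rw [hθ]; positivity
  have hθ1 : 8 * K * θ = ε := by rw [hθ]; field_simp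
  obtain ⟨A₂, hA₂, κ₀, hκ₀, hhom⟩ := t_HOM2 d hd A₁ hA₁1 δ hδ0 hδ1 (θ ^ 2) (by positivity)
  obtain ⟨κ, hκ⟩ : ∃ κ : ℝ, κ = min κ₀ 1 := ⟨_, rfl⟩
  have hκ0 : 0 < κ := by rw [hκ]; exact lt_min hκ₀ one_pos
  have hκ1 : κ ≤ κ₀ := by rw [hκ]; exact min_le_left _ _
  obtain ⟨N₀, hN₀⟩ := exists_nat_gt (24 * (K : ℝ) ^ 2 / ε + K)
  have hsq : 0 ≤ (((N₀ : ℝ) + 1) / δ) ^ 2 := sq_nonneg _
  have hsq2 : 0 ≤ (d * K / κ) ^ 2 := sq_nonneg _
  refine ⟨A₂ + (((N₀ : ℝ) + 1) / δ) ^ 2 + (d * K / κ) ^ 2, by linarith, κ, hκ0,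
    by rw [hκ]; exact min_le_right _ _, ?_⟩
  intro L _ hL hKL t ht1 n hnK x y hyx hyy hdis
  have ht1' : 1 ≤ t := by linarith
  have ht0 : 0 < t := by linarith
  have hst : 0 < Real.sqrt t := Real.sqrt_pos.2 ht0
  have hL3r : (3 : ℝ) ≤ L := by exact_mod_cast hL
  have hnKr : (n : ℝ) + 1 ≤ K := by exact_mod_cast hnK
  have hn0 : (0 : ℝ) ≤ n := by positivity
  -- the tuple `x, y` as a function on `Fin (n + 1)`
  have htup : ∀ (x : Fin d → ZMod L) (y : Fin n → Fin d → ZMod L),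
      (∀ i, y i ≠ x) → (∀ i j, i ≠ j → y i ≠ y j) → ∀ η : ℝ, 0 ≤ η →
      (∀ i j : Fin (n + 1), NN (nnRate d L) t (swap ((Fin.cons x y : Fin (n + 1) → Fin d → ZMod L) i)
        ((Fin.cons x y : Fin (n + 1) → Fin d → ZMod L) j)) ≤ η) →
      |QQ (nnRate d L) t x y - 1 / ((n : ℝ) + 1)| ≤ ((n : ℝ) + 1) * η := by
    intro x y hyx hyy η hη hN
    have hinj : Function.Injective (Fin.cons x y : Fin (n + 1) → Fin d → ZMod L) := by
      rw [Fin.cons_injective_iff]
      refine ⟨?_, ?_⟩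
      · rintro ⟨i, hi⟩
        exact hyx i hi
      · intro i j hij
        by_contra h
        exact hyy i j h hij
    have h1 := one_cycle (nnRate d L) t (Nat.succ_le_succ (Nat.zero_le n)) _ hinj η hη hN
    have h2 : QQ (nnRate d L) t x y = ∑ g, stirLaw (nnRate d L) t g *
        (open Classical in if ∀ i j, g.SameCycle
          ((Fin.cons x y : Fin (n + 1) → Fin d → ZMod L) i)
          ((Fin.cons x y : Fin (n + 1) → Fin d → ZMod L) j) then (1 : ℝ) else 0) := by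
      unfold QQ stirExp
      refine Finset.sum_congr rfl fun g _ => ?_
      beta_reduce
      rw [← II_eq]
      simp only [Fin.cons_zero, Fin.cons_succ]
    rw [← h2] at h1
    push_cast at h1
    exact h1
  rcases le_total t (A₁ * (L : ℝ) ^ 2) with hcase | hcase
  · obtain ⟨hR1, hRL, hh⟩ := hhom L hL t (by linarith) hcase
    obtain ⟨R, hR⟩ : ∃ R : ℕ, R = ⌊δ * Real.sqrt t⌋₊ := ⟨_, rfl⟩
    rw [← hR] at hR1 hRL hh
    have hcard : (box d L R).card = R ^ d := (t_NEAR d L R hR1 hRL 0).1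
    have hN : N₀ ≤ R := by
      rw [hR]
      refine Nat.le_floor ?_
      have h1 : ((N₀ : ℝ) + 1) / δ ≤ Real.sqrt t := Real.le_sqrt_of_sq_le (by linarith)
      rw [div_le_iff₀ hδ0] at h1
      linarith
    have hNB : N₀ ≤ (box d L R).card := by
      rw [hcard]
      exact hN.trans (Nat.le_self_pow (by omega) R)
    have hNBr : (N₀ : ℝ) ≤ (box d L R).card := by exact_mod_cast hNB
    have hKB : 24 * (K : ℝ) ^ 2 / ε + K ≤ (box d L R).card := hN₀.le.trans hNBr
    have hpos24 : 0 < 24 * (K : ℝ) ^ 2 / ε := by positivity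
    have hKR : K ≤ R := by
      have h1 : (K : ℝ) ≤ N₀ := by linarith
      have h2 : K ≤ N₀ := by exact_mod_cast h1
      exact h2.trans hN
    have hB0 : 0 < (box d L R).card := by
      rw [hcard]
      positivity
    have hB0r : (0 : ℝ) < (box d L R).card := by exact_mod_cast hB0
    have hNN : ∀ v x y : Fin d → ZMod L, x ∈ box d L R → y ∈ box d L R →
        NN (nnRate d L) t (swap (v + x) (v + y)) ≤ C * d * δ := by
      intro v x y hx hy
      rw [hR] at hx hy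
      exact NN_box C hC t ht0 (hdist L hL t ht0) δ hδ0 v x y hx hy
    have hNN0 : ∀ v, ∀ z ∈ box d L R, NN (nnRate d L) t (swap v (v + z)) ≤ C * d * δ := by
      intro v z hz
      have h1 := hNN v 0 z (zero_box hR1) hz
      rwa [add_zero] at h1
    obtain ⟨η, hη⟩ : ∃ η : ℝ, η = C * d * δ := ⟨_, rfl⟩
    have hη0 : 0 ≤ η := by rw [hη]; positivity
    rw [← hη] at hNN hNN0 hδ2
    obtain ⟨Mn, hMn⟩ : ∃ Mn : ℝ, Mn = stirExp (nnRate d L) t
      (fun g => dens g (box d L R) (0 : Fin d → ZMod L) ^ n) := ⟨_, rfl⟩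
    obtain ⟨Er, hEr⟩ : ∃ Er : ℝ, Er = n * (2 * η) + (n + 2 * (n : ℝ) ^ 2) / (box d L R).card +
      n * θ := ⟨_, rfl⟩
    have hmain : ∀ (x : Fin d → ZMod L) (y : Fin n → Fin d → ZMod L),
        (∀ i, y i ≠ x) → (∀ i j, i ≠ j → y i ≠ y j) →
        (∀ i, (nrm (y i - x) : ℝ) ≤ κ * t ^ (((d : ℝ) + 1) / (d + 2))) →
        |QQ (nnRate d L) t x y - Mn| ≤ Er := by
      intro x y hyx hyy hdis
      have h1 := QQ_mean2 ht0.le (box d L R) hB0 x y hyx hyy η θ hη0 hθ0 hNN0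
        (fun i => hh (y i) x ((hdis i).trans (mul_le_mul_of_nonneg_right hκ1
          (Real.rpow_nonneg ht0.le _))))
      rw [← hMn, ← hEr] at h1
      exact h1
    -- the special tuple
    obtain ⟨p, hp⟩ : ∃ p : ℕ → Fin d → ZMod L, p = fun j _ => ((j : ℕ) : ZMod L) := ⟨_, rfl⟩
    have hpv : ∀ j : ℕ, j < K → ∀ i, (p j i).val = j := by
      intro j hj i
      rw [hp]
      exact ZMod.val_natCast_of_lt (by omega)
    have hpb : ∀ j : ℕ, j < K → p j ∈ box d L R := by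
      intro j hj
      unfold PDS.box
      rw [Finset.mem_filter]
      refine ⟨Finset.mem_univ _, fun i => ?_⟩
      rw [hpv j hj i]
      omega
    have hpbK : ∀ j : ℕ, j < K → p j ∈ box d L K := by
      intro j hj
      unfold PDS.box
      rw [Finset.mem_filter]
      refine ⟨Finset.mem_univ _, fun i => ?_⟩
      rw [hpv j hj i]
      exact hj
    have hpi : ∀ j j' : ℕ, j < K → j' < K → p j = p j' → j = j' := by
      intro j j' hj hj' h
      have h1 := congrArg (fun q : Fin d → ZMod L => (q ⟨0, by omega⟩).val) h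
      rwa [hpv j hj, hpv j' hj'] at h1
    have hpd : ∀ j : ℕ, j < K → (nrm (p j - p 0) : ℝ) ≤ κ * t ^ (((d : ℝ) + 1) / (d + 2)) := by
      intro j hj
      have h1 := tdist_box K 0 (p j) (p 0) (hpbK j hj) (hpbK 0 (by omega))
      rw [zero_add, zero_add, tdist_nrm] at h1
      have h2 : (nrm (p j - p 0) : ℝ) ≤ d * K := by exact_mod_cast h1
      have h3 : Real.sqrt t ≤ t ^ (((d : ℝ) + 1) / (d + 2)) := by
        rw [Real.sqrt_eq_rpow]
        refine Real.rpow_le_rpow_of_exponent_le ht1' ?_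
        rw [div_le_div_iff₀ (by norm_num) (by positivity)]
        linarith
      have h4 : d * K / κ ≤ Real.sqrt t := Real.le_sqrt_of_sq_le (by linarith)
      rw [div_le_iff₀ hκ0] at h4
      calc (nrm (p j - p 0) : ℝ) ≤ d * K := h2
        _ ≤ κ * Real.sqrt t := by linarith
        _ ≤ _ := mul_le_mul_of_nonneg_left h3 hκ0.le
    have h3 := hmain x y hyx hyy hdis
    have hsy : ∀ i : Fin n, (i : ℕ) + 1 < K := fun i => by have := i.2; omega
    have h4 := hmain (p 0) (fun i => p ((i : ℕ) + 1))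
      (fun i h => by
        have := hpi _ _ (hsy i) (by omega) h
        omega)
      (fun i j hij h => by
        have := hpi _ _ (hsy i) (hsy j) h
        exact hij (Fin.ext (by omega)))
      (fun i => hpd _ (hsy i))
    have h5 := htup (p 0) (fun i => p ((i : ℕ) + 1))
      (fun i h => by
        have := hpi _ _ (hsy i) (by omega) h
        omega)
      (fun i j hij h => by
        have := hpi _ _ (hsy i) (hsy j) h
        exact hij (Fin.ext (by omega))) η hη0 (by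
      have hin : ∀ i : Fin (n + 1), (Fin.cons (p 0) (fun i : Fin n => p ((i : ℕ) + 1)) :
          Fin (n + 1) → Fin d → ZMod L) i ∈ box d L R := by
        intro i
        refine Fin.cases ?_ (fun j => ?_) i
        · exact hpb 0 (by omega)
        · exact hpb _ (hsy j)
      intro i j
      have := hNN 0 _ _ (hin i) (hin j)
      rwa [zero_add, zero_add] at this)
    have hErle : 2 * Er + ((n : ℝ) + 1) * η ≤ ε := by
      have g1 : (n + 2 * (n : ℝ) ^ 2) / (box d L R).card ≤ ε / 8 := by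
        rw [div_le_iff₀ hB0r]
        have g2 : 24 * (K : ℝ) ^ 2 / ε ≤ (box d L R).card := by linarith
        rw [div_le_iff₀ hε] at g2
        have g3 : (n : ℝ) + 2 * (n : ℝ) ^ 2 ≤ 3 * (K : ℝ) ^ 2 := by nlinarith
        linarith
      have g4 : (n : ℝ) * η ≤ K * η := mul_le_mul_of_nonneg_right (by linarith) hη0
      have g5 : (n : ℝ) * θ ≤ K * θ := mul_le_mul_of_nonneg_right (by linarith) hθ0.le
      have g6 : ((n : ℝ) + 1) * η ≤ K * η := mul_le_mul_of_nonneg_right hnKr hη0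
      rw [hEr]
      linarith
    have h6 := abs_sub_le (QQ (nnRate d L) t x y) Mn (1 / ((n : ℝ) + 1))
    have h7 := abs_sub_le Mn (QQ (nnRate d L) t (p 0) (fun i : Fin n => p ((i : ℕ) + 1)))
      (1 / ((n : ℝ) + 1))
    have h4' := h4
    rw [abs_sub_comm] at h4'
    linarith only [h3, h4', h5, h6, h7, hErle]
  · -- beyond the diffusive time
    have hη1 : ∀ u w : Fin d → ZMod L, NN (nnRate d L) t (swap u w) ≤ ε / K := by
      intro u w
      refine (hdist L hL t ht0 u w).trans ?_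
      rw [div_le_iff₀ hst]
      have h1 := Pool.Agent.Results.MP_b817cf_pr.LocalPoissonDirichlet.dist_le u w
      have e2 : (Pool.Agent.Y998.LP.tdist u w : ℝ) =
        Pool.Agent.Results.MP_b817cf_pr.LocalPoissonDirichlet.torusDist u w := rfl
      rw [e2]
      have h3 : (C * d * K / ε * L) ^ 2 ≤ t := by
        refine le_trans ?_ hcase
        rw [mul_pow]
        refine mul_le_mul_of_nonneg_right ?_ (by positivity)
        linarith
      have h4 : C * d * K / ε * L ≤ Real.sqrt t := Real.le_sqrt_of_sq_le h3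
      calc C * (Pool.Agent.Results.MP_b817cf_pr.LocalPoissonDirichlet.torusDist u w : ℝ)
          ≤ C * (d * L) := mul_le_mul_of_nonneg_left h1 hC.le
        _ = ε / K * (C * d * K / ε * L) := by field_simp
        _ ≤ ε / K * Real.sqrt t := mul_le_mul_of_nonneg_left h4 (by positivity)
    refine (htup x y hyx hyy (ε / K) (by positivity) fun i j => hη1 _ _).trans ?_
    calc ((n : ℝ) + 1) * (ε / K) ≤ K * (ε / K) := mul_le_mul_of_nonneg_right hnKr (by positivity)
      _ = ε := by field_simp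

end Pool.Agent.R517.PDL
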