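import Pool.Agent.R517.PDL.L5

/-!
# The length of typical cycles
-/

set_option autoImplicit false

namespace Pool.Agent.R517.PDL

open Finset Equiv
open Pool.Agent.Y998.ST (stirLaw stirExp hop nnRate lam exp_const exp_nonneg nn_nonneg nn_symm
  nn_diag law_nonneg qq_torus cycleLen)
open Pool.Agent.Y998.LP (NN bfrac tdist NN_nonneg NN_one law_inv)
open Pool.Agent.R517.PDS

/-- alternating sum -/
theorem alt_sum (m : ℕ) : ∑ j ∈ range (m + 1), (-1 : ℝ) ^ j * (m.choose j) * (1 / ((j : ℝ) + 1)) =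
    1 / ((m : ℝ) + 1) := by
  have h1 : ∑ j ∈ range (m + 2), (-1 : ℝ) ^ j * ((m + 1).choose j) = 0 := by
    have h := Int.alternating_sum_range_choose (n := m + 1)
    rw [if_neg (by omega)] at h
    have h2 : ((∑ j ∈ range (m + 1 + 1), (-1 : ℤ) ^ j * ((m + 1).choose j) : ℤ) : ℝ) = 0 := by
      rw [h]
      simp
    push_cast at h2
    exact h2
  rw [Finset.sum_range_succ'] at h1
  simp only [pow_zero, Nat.choose_zero_right, Nat.cast_one, mul_one] at h1
  have h3 : ∀ j ∈ range (m + 1), (-1 : ℝ) ^ j * (m.choose j) * (1 / ((j : ℝ) + 1)) =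
      -(1 / ((m : ℝ) + 1)) * ((-1 : ℝ) ^ (j + 1) * ((m + 1).choose (j + 1))) := by
    intro j _
    have h4 : ((m + 1 : ℕ) : ℝ) * (m.choose j) = ((m + 1).choose (j + 1)) * ((j + 1 : ℕ) : ℝ) := by
      exact_mod_cast Nat.add_one_mul_choose_eq m j
    push_cast at h4
    have hm : (m : ℝ) + 1 ≠ 0 := by positivity
    have hj : (j : ℝ) + 1 ≠ 0 := by positivity
    have h5 : (m.choose j : ℝ) = ((m + 1).choose (j + 1)) * ((j : ℝ) + 1) / ((m : ℝ) + 1) := by
      rw [eq_div_iff hm]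
      linarith
    rw [h5, pow_succ]
    field_simp
  rw [Finset.sum_congr rfl h3, ← Finset.mul_sum]
  have h6 : ∑ j ∈ range (m + 1), (-1 : ℝ) ^ (j + 1) * ((m + 1).choose (j + 1) : ℝ) = -1 := by
    linarith
  rw [h6]
  ring

section torus

variable {d L : ℕ} [NeZero L]

/-- the moments of the density of the cycle of `v` in a box at `v` -/
theorem mom {t : ℝ} (ht : 0 ≤ t) (B : Finset (Fin d → ZMod L)) (hB : 0 < B.card)
    {n : ℕ} (v : Fin d → ZMod L) (ε : ℝ) (hε : 0 ≤ ε)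
    (h : ∀ y : Fin n → Fin d → ZMod L, (∀ i, y i ≠ v) → (∀ i j, i ≠ j → y i ≠ y j) →
      (∀ i, y i - v ∈ B) → |QQ (nnRate d L) t v y - 1 / ((n : ℝ) + 1)| ≤ ε) :
    |stirExp (nnRate d L) t (fun g => PDS.dens g (B.image (fun b => v + b)) v ^ n) -
      1 / ((n : ℝ) + 1)| ≤ ε + (n + (n : ℝ) ^ 2) / B.card := by
  classical
  have hb : (0 : ℝ) < B.card := by exact_mod_cast hB
  have hbn : (0 : ℝ) < (B.card : ℝ) ^ n := by positivity
  obtain ⟨P, hP⟩ : ∃ P : Finset (Fin n → Fin d → ZMod L), P = Fintype.piFinset fun _ => B :=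
    ⟨_, rfl⟩
  have hPc : (P.card : ℝ) = (B.card : ℝ) ^ n := by
    rw [hP]
    simp [Fintype.card_piFinset]
  have hA : stirExp (nnRate d L) t (fun g => PDS.dens g (B.image (fun b => v + b)) v ^ n) =
      ∑ z ∈ P, QQ (nnRate d L) t v (fun i => v + z i) / (B.card : ℝ) ^ n := by
    have e1 : (fun g : Perm (Fin d → ZMod L) => PDS.dens g (B.image (fun b => v + b)) v ^ n) =
        fun g => ∑ z ∈ P, 1 / (B.card : ℝ) ^ n * II g v (fun i => v + z i) := by
      funext g
      have h1 := II_mean g B v (fun _ : Fin n => v)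
      rw [Finset.prod_const, Finset.card_univ, Fintype.card_fin] at h1
      rw [h1, hP]
      exact Finset.sum_congr rfl fun z _ => by ring
    rw [e1, stirExp_sum]
    refine Finset.sum_congr rfl fun z _ => ?_
    rw [stirExp_smul]
    unfold QQ
    ring
  have e1 : (∑ z ∈ P, QQ (nnRate d L) t v (fun i => v + z i) / (B.card : ℝ) ^ n) -
      1 / ((n : ℝ) + 1) = ∑ z ∈ P, (QQ (nnRate d L) t v (fun i => v + z i) - 1 / ((n : ℝ) + 1)) /
        (B.card : ℝ) ^ n := by
    rw [← Finset.sum_div, ← Finset.sum_div, Finset.sum_sub_distrib, Finset.sum_const, nsmul_eq_mul,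
      hPc]
    field_simp
  rw [hA, e1]
  refine (Finset.abs_sum_le_sum_abs _ _).trans ?_
  have hn1 : (0 : ℝ) ≤ 1 / ((n : ℝ) + 1) ∧ 1 / ((n : ℝ) + 1) ≤ 1 := by
    constructor
    · positivity
    · rw [div_le_one (by positivity)]
      have : (0 : ℝ) ≤ n := by positivity
      linarith
  have hpt : ∀ z ∈ P, |(QQ (nnRate d L) t v (fun i => v + z i) - 1 / ((n : ℝ) + 1)) /
      (B.card : ℝ) ^ n| ≤ (ε + (∑ i, if z i = 0 then (1 : ℝ) else 0) +
        (∑ i, ∑ j, if i ≠ j ∧ z i = z j then (1 : ℝ) else 0)) / (B.card : ℝ) ^ n := by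
    intro z hz
    rw [abs_div, abs_of_pos hbn]
    refine div_le_div_of_nonneg_right ?_ hbn.le
    have n1 : 0 ≤ ∑ i, if z i = 0 then (1 : ℝ) else 0 :=
      Finset.sum_nonneg fun i _ => by split_ifs <;> norm_num
    have n2' : ∀ i, 0 ≤ ∑ j, if i ≠ j ∧ z i = z j then (1 : ℝ) else 0 := fun i =>
      Finset.sum_nonneg fun j _ => by split_ifs <;> norm_num
    have n2 : 0 ≤ ∑ i, ∑ j, if i ≠ j ∧ z i = z j then (1 : ℝ) else 0 :=
      Finset.sum_nonneg fun i _ => n2' i
    have q2 := QQ_mem (J := nnRate d L) nn_nonneg ht v (fun i => v + z i)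
    have hle1 : |QQ (nnRate d L) t v (fun i => v + z i) - 1 / ((n : ℝ) + 1)| ≤ 1 :=
      abs_le.2 ⟨by linarith [q2.1, hn1.2], by linarith [q2.2, hn1.1]⟩
    by_cases c1 : ∃ i, z i = 0
    · obtain ⟨i, hi⟩ := c1
      have := Finset.single_le_sum (f := fun i => if z i = 0 then (1 : ℝ) else 0)
        (fun i _ => by split_ifs <;> norm_num) (Finset.mem_univ i)
      rw [if_pos hi] at this
      linarith
    by_cases c2 : ∃ i j, i ≠ j ∧ z i = z j
    · obtain ⟨i, j, hij⟩ := c2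
      have a1 := Finset.single_le_sum
        (f := fun j => if i ≠ j ∧ z i = z j then (1 : ℝ) else 0)
        (fun i _ => by split_ifs <;> norm_num) (Finset.mem_univ j)
      have a2 := Finset.single_le_sum
        (f := fun i => ∑ j, if i ≠ j ∧ z i = z j then (1 : ℝ) else 0)
        (fun i _ => n2' i) (Finset.mem_univ i)
      rw [if_pos hij] at a1
      linarith
    have hz' : ∀ i, z i ∈ B := by
      rw [hP, Fintype.mem_piFinset] at hz
      exact hz
    have := h (fun i => v + z i) (fun i h' => c1 ⟨i, by simpa using h'⟩)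
      (fun i j hij h' => c2 ⟨i, j, hij, add_left_cancel h'⟩) (fun i => by
        rw [add_sub_cancel_left]
        exact hz' i)
    linarith
  refine (Finset.sum_le_sum hpt).trans ?_
  rw [← Finset.sum_div, div_le_iff₀ hbn, Finset.sum_add_distrib, Finset.sum_add_distrib,
    Finset.sum_const, nsmul_eq_mul, hPc]
  have t1 : ∑ z ∈ P, ∑ i, (if z i = 0 then (1 : ℝ) else 0) ≤
      n * ((B.card : ℝ) ^ n * (1 / B.card)) := by
    rw [Finset.sum_comm]
    refine (Finset.sum_le_card_nsmul _ _ ((B.card : ℝ) ^ n * (1 / B.card)) fun i _ => ?_).trans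
      (le_of_eq ?_)
    · rw [hP]
      refine fib' B hB i (fun z => z i = 0) ?_
      intro z z' hz hz' _
      exact hz.trans hz'.symm
    · rw [Finset.card_univ, Fintype.card_fin, nsmul_eq_mul]
  have t2 : ∑ z ∈ P, ∑ i, ∑ j, (if i ≠ j ∧ z i = z j then (1 : ℝ) else 0) ≤
      n * (n * ((B.card : ℝ) ^ n * (1 / B.card))) := by
    rw [Finset.sum_comm]
    refine (Finset.sum_le_card_nsmul _ _ (n * ((B.card : ℝ) ^ n * (1 / B.card)))
      fun i _ => ?_).trans (le_of_eq ?_)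
    · rw [Finset.sum_comm]
      refine (Finset.sum_le_card_nsmul _ _ ((B.card : ℝ) ^ n * (1 / B.card)) fun j _ => ?_).trans
        (le_of_eq ?_)
      · rw [hP]
        refine fib' B hB i (fun z => i ≠ j ∧ z i = z j) ?_
        intro z z' hz hz' ho
        have h2 := ho j (Ne.symm hz.1)
        rw [hz.2, h2, hz'.2]
      · rw [Finset.card_univ, Fintype.card_fin, nsmul_eq_mul]
    · rw [Finset.card_univ, Fintype.card_fin, nsmul_eq_mul]
  have e5 : (ε + (n + (n : ℝ) ^ 2) / B.card) * (B.card : ℝ) ^ n =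
      (B.card : ℝ) ^ n * ε + n * ((B.card : ℝ) ^ n * (1 / B.card)) +
      n * (n * ((B.card : ℝ) ^ n * (1 / B.card))) := by
    ring
  rw [e5]
  linarith

theorem stirExp_sub (J : (Fin d → ZMod L) → (Fin d → ZMod L) → ℝ) (t : ℝ) (m : ℕ)
    (Y : Perm (Fin d → ZMod L) → ℝ) : stirExp J t (fun g => (1 - Y g) ^ m) =
      ∑ j ∈ range (m + 1), (-1 : ℝ) ^ j * (m.choose j) * stirExp J t (fun g => Y g ^ j) := by
  have h1 : (fun g => (1 - Y g) ^ m) = fun g =>
      ∑ j ∈ range (m + 1), (-1 : ℝ) ^ j * (m.choose j) * Y g ^ j := by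
    funext g
    have : 1 - Y g = -Y g + 1 := by ring
    rw [this, add_pow]
    refine Finset.sum_congr rfl fun j _ => ?_
    rw [one_pow, mul_one, neg_pow]
    ring
  rw [h1, stirExp_sum]
  exact Finset.sum_congr rfl fun j _ => stirExp_smul _ _ _ _

open Classical in
/-- the density of the cycle of `v` in a box at `v` is rarely small -/
theorem dens_small {t : ℝ} (ht : 0 ≤ t) (B : Finset (Fin d → ZMod L)) (hB : 0 < B.card)
    (m : ℕ) (hm : 1 ≤ m) (v : Fin d → ZMod L) (ε : ℝ) (hε : 0 ≤ ε)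
    (h : ∀ n : ℕ, n ≤ m → ∀ y : Fin n → Fin d → ZMod L, (∀ i, y i ≠ v) →
      (∀ i j, i ≠ j → y i ≠ y j) →
      (∀ i, y i - v ∈ B) → |QQ (nnRate d L) t v y - 1 / ((n : ℝ) + 1)| ≤ ε) :
    stirExp (nnRate d L) t (fun g => if PDS.dens g (B.image (fun b => v + b)) v ≤ 1 / (2 * m)
      then 1 else 0) ≤ 2 * (1 / ((m : ℝ) + 1) + 2 ^ m * (ε + 2 * (m : ℝ) ^ 2 / B.card)) := by
  have hb : (0 : ℝ) < B.card := by exact_mod_cast hB
  have hm1 : (1 : ℝ) ≤ m := by exact_mod_cast hm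
  obtain ⟨Y, hY⟩ : ∃ Y : Perm (Fin d → ZMod L) → ℝ, Y = fun g =>
    PDS.dens g (B.image (fun b => v + b)) v := ⟨_, rfl⟩
  have hYm : ∀ g, 0 ≤ Y g ∧ Y g ≤ 1 := fun g => by
    rw [hY]
    exact dens_mem _ _ _
  -- Markov
  have h1 : stirExp (nnRate d L) t (fun g => if PDS.dens g (B.image (fun b => v + b)) v ≤
      1 / (2 * m) then 1 else 0) ≤ 2 * stirExp (nnRate d L) t (fun g => (1 - Y g) ^ m) := by
    rw [← stirExp_smul]
    refine stirExp_mono nn_nonneg ht _ _ fun g => ?_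
    have h2 : 0 ≤ 1 - Y g := by linarith [(hYm g).2]
    split_ifs with h3
    · have h4 : Y g ≤ 1 / (2 * m) := by rw [hY]; exact h3
      have h5 := one_add_mul_le_pow (a := -Y g) (by linarith [(hYm g).2]) m
      have h6 : 1 + -Y g = 1 - Y g := by ring
      rw [h6] at h5
      have h7 : (m : ℝ) * Y g ≤ 1 / 2 := by
        calc (m : ℝ) * Y g ≤ m * (1 / (2 * m)) := mul_le_mul_of_nonneg_left h4 (by positivity)
          _ = 1 / 2 := by field_simp
      linarith
    · positivity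
  refine h1.trans (mul_le_mul_of_nonneg_left ?_ (by norm_num))
  rw [stirExp_sub]
  have h8 : ∀ n ∈ range (m + 1), |stirExp (nnRate d L) t (fun g => Y g ^ n) -
      1 / ((n : ℝ) + 1)| ≤ ε + 2 * (m : ℝ) ^ 2 / B.card := by
    intro n hn
    have hn' : n ≤ m := Nat.lt_succ_iff.1 (Finset.mem_range.1 hn)
    have h9 := mom ht B hB v ε hε (h n hn')
    rw [hY]
    refine h9.trans ?_
    have h10 : (n : ℝ) ≤ m := by exact_mod_cast hn'
    have h11 : (0 : ℝ) ≤ n := by positivity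
    have h12 : (n + (n : ℝ) ^ 2) / B.card ≤ 2 * (m : ℝ) ^ 2 / B.card :=
      div_le_div_of_nonneg_right (by nlinarith) hb.le
    linarith
  have h13 : ∑ j ∈ range (m + 1), (-1 : ℝ) ^ j * (m.choose j) *
      stirExp (nnRate d L) t (fun g => Y g ^ j) - 1 / ((m : ℝ) + 1) =
      ∑ j ∈ range (m + 1), (-1 : ℝ) ^ j * (m.choose j) *
        (stirExp (nnRate d L) t (fun g => Y g ^ j) - 1 / ((j : ℝ) + 1)) := by
    rw [← alt_sum m, ← Finset.sum_sub_distrib]
    exact Finset.sum_congr rfl fun j _ => by ring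
  have h14 : ∑ j ∈ range (m + 1), (-1 : ℝ) ^ j * (m.choose j) *
        (stirExp (nnRate d L) t (fun g => Y g ^ j) - 1 / ((j : ℝ) + 1)) ≤
      2 ^ m * (ε + 2 * (m : ℝ) ^ 2 / B.card) := by
    have h15 : ∀ j ∈ range (m + 1), (-1 : ℝ) ^ j * (m.choose j) *
        (stirExp (nnRate d L) t (fun g => Y g ^ j) - 1 / ((j : ℝ) + 1)) ≤
        (m.choose j : ℝ) * (ε + 2 * (m : ℝ) ^ 2 / B.card) := by
      intro j hj
      refine (le_abs_self _).trans ?_
      rw [abs_mul, abs_mul, abs_pow, abs_neg, abs_one, one_pow, one_mul, Nat.abs_cast]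
      exact mul_le_mul_of_nonneg_left (h8 j hj) (by positivity)
    refine (Finset.sum_le_sum h15).trans (le_of_eq ?_)
    rw [← Finset.sum_mul]
    congr 1
    exact_mod_cast Nat.sum_range_choose m
  linarith

end torus

end Pool.Agent.R517.PDL
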