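import Pool.Agent.R517.PDL.L6

/-!
# The length of typical cycles: the theorem
-/

set_option autoImplicit false

namespace Pool.Agent.R517.PDL

open Finset Equiv
open Pool.Agent.Y998.ST (stirLaw stirExp hop nnRate lam exp_const exp_nonneg nn_nonneg nn_symm
  nn_diag law_nonneg qq_torus cycleLen)
open Pool.Agent.Y998.LP (NN bfrac tdist NN_nonneg NN_one law_inv)
open Pool.Agent.R517.PDS

theorem one_le_len {V : Type} [Fintype V] (g : Perm V) (v : V) : 1 ≤ cycleLen g v := by
  unfold cycleLen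
  have : Nonempty {w : V // g.SameCycle v w} := ⟨⟨v, Perm.SameCycle.refl _ _⟩⟩
  exact Nat.card_pos

theorem dens_len {V : Type} [Fintype V] [DecidableEq V] (g : Perm V) (v : V) (S : Finset V) :
    PDS.dens g S v ≤ (cycleLen g v : ℝ) / S.card := by
  classical
  unfold PDS.dens
  refine div_le_div_of_nonneg_right ?_ (by positivity)
  rw [Finset.sum_boole]
  unfold cycleLen
  rw [Nat.card_eq_fintype_card, Fintype.card_subtype]
  exact_mod_cast Finset.card_le_card (Finset.filter_subset_filter _ (Finset.subset_univ S))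

open Classical in
theorem typ (d : ℕ) (hd : 1 ≤ d) (ε : ℝ) (hε : 0 < ε) :
    ∃ c : ℝ, 0 < c ∧ ∀ (L : ℕ) [NeZero L], 3 ≤ L → ∀ t : ℝ, 0 < t → ∀ v : Fin d → ZMod L,
      stirExp (nnRate d L) t (fun g =>
        if (cycleLen g v : ℝ) ≤ c * min (t ^ (((d : ℝ) + 1) / (d + 2))) (L : ℝ) ^ d
        then 1 else 0) ≤ ε := by
  have hd1 : (1 : ℝ) ≤ d := by exact_mod_cast hd
  obtain ⟨m, hm⟩ : ∃ m : ℕ, m = ⌈8 / ε⌉₊ + 1 := ⟨_, rfl⟩
  have hm1 : 1 ≤ m := by omega
  have hm1r : (1 : ℝ) ≤ m := by exact_mod_cast hm1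
  have hm8 : 8 / ε ≤ m := by
    have h1 := Nat.le_ceil (8 / ε)
    rw [hm]
    push_cast
    linarith
  have hm8' : 8 ≤ m * ε := by rwa [div_le_iff₀ hε] at hm8
  obtain ⟨ε', hε'⟩ : ∃ ε' : ℝ, ε' = ε / (8 * 2 ^ m) := ⟨_, rfl⟩
  have hε'0 : 0 < ε' := by rw [hε']; positivity
  have hε'1 : 8 * (2 : ℝ) ^ m * ε' = ε := by rw [hε']; field_simp
  obtain ⟨T₀, hT₀, κ, hκ0, hκ1, hk⟩ := kloc d hd (m + 1) (by omega) ε' hε'0
  obtain ⟨N, hN⟩ := exists_nat_gt (16 * 2 ^ m * (m : ℝ) ^ 2 / ε + m + 3)
  have hNpos : 0 < 16 * 2 ^ m * (m : ℝ) ^ 2 / ε := by positivity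
  have hNm : m + 3 ≤ N := by
    have : ((m + 3 : ℕ) : ℝ) < N := by
      push_cast
      linarith
    exact_mod_cast this.le
  obtain ⟨κ', hκ'⟩ : ∃ κ' : ℝ, κ' = κ / d := ⟨_, rfl⟩
  have hκ'0 : 0 < κ' := by rw [hκ']; positivity
  have hκ'1 : κ' ≤ 1 := by
    rw [hκ', div_le_one (by positivity)]
    linarith
  have hκ'd : d * κ' = κ := by rw [hκ']; field_simp
  obtain ⟨G, hG⟩ : ∃ G : ℝ, G = T₀ + N / κ' := ⟨_, rfl⟩
  have hN0 : (0 : ℝ) < N := by exact_mod_cast (by omega : 0 < N)
  have hNκ : 0 < N / κ' := by positivity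
  have hG0 : 0 < G := by rw [hG]; linarith
  obtain ⟨c, hc⟩ : ∃ c : ℝ, c = min ((κ' / 2) ^ d / (2 * m)) (1 / (2 * G ^ d)) := ⟨_, rfl⟩
  have hc0 : 0 < c := by rw [hc]; exact lt_min (by positivity) (by positivity)
  have hc1 : c ≤ (κ' / 2) ^ d / (2 * m) := by rw [hc]; exact min_le_left _ _
  have hc2 : c * G ^ d ≤ 1 / 2 := by
    have h1 : c ≤ 1 / (2 * G ^ d) := by rw [hc]; exact min_le_right _ _
    rw [le_div_iff₀ (by positivity)] at h1
    linarith
  refine ⟨c, hc0, ?_⟩
  intro L _ hL t ht v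
  have hLr : (3 : ℝ) ≤ L := by exact_mod_cast hL
  obtain ⟨X, hX⟩ : ∃ X : ℝ, X = t ^ (((d : ℝ) + 1) / (d + 2)) := ⟨_, rfl⟩
  have hX0 : 0 < X := by rw [hX]; exact Real.rpow_pos_of_pos ht _
  rw [← hX]
  have hmin0 : 0 ≤ min X (L : ℝ) := le_min hX0.le (by linarith)
  obtain ⟨l, hl⟩ : ∃ l : ℕ, l = min ⌊κ' * X⌋₊ L := ⟨_, rfl⟩
  by_cases hcase : T₀ ≤ t ∧ N ≤ l
  · obtain ⟨htT, hNl⟩ := hcase
    have hlL : l ≤ L := by rw [hl]; exact min_le_right _ _
    have hlX : l ≤ ⌊κ' * X⌋₊ := by rw [hl]; exact min_le_left _ _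
    have hl1 : 1 ≤ l := by omega
    have hl1r : (1 : ℝ) ≤ l := by exact_mod_cast hl1
    have hlX' : (l : ℝ) ≤ κ' * X := by
      have h1 : (l : ℝ) ≤ ⌊κ' * X⌋₊ := by exact_mod_cast hlX
      exact h1.trans (Nat.floor_le (by positivity))
    have hcard : (box d L l).card = l ^ d := (t_NEAR d L l hl1 hlL 0).1
    have hB0 : 0 < (box d L l).card := by rw [hcard]; positivity
    have hB0r : (0 : ℝ) < (box d L l).card := by exact_mod_cast hB0
    have hBN : (N : ℝ) ≤ (box d L l).card := by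
      have h1 : N ≤ (box d L l).card := by
        rw [hcard]
        exact hNl.trans (Nat.le_self_pow (by omega) l)
      exact_mod_cast h1
    have hs := dens_small (d := d) (L := L) ht.le (box d L l) hB0 m hm1 v ε' hε'0.le (by
      intro n hn y hyv hyy hyB
      refine hk L hL (by omega) t htT n (by omega) v y hyv hyy fun i => ?_
      have h1 := tdist_box l 0 (y i - v) 0 (hyB i) (zero_box hl1)
      rw [zero_add, zero_add, tdist_nrm, sub_zero] at h1
      have h2 : (nrm (y i - v) : ℝ) ≤ d * l := by exact_mod_cast h1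
      rw [← hX]
      calc (nrm (y i - v) : ℝ) ≤ d * l := h2
        _ ≤ d * (κ' * X) := mul_le_mul_of_nonneg_left hlX' (by positivity)
        _ = κ * X := by rw [← hκ'd]; ring)
    have hb1 : 2 * (1 / ((m : ℝ) + 1) + 2 ^ m * (ε' + 2 * (m : ℝ) ^ 2 / (box d L l).card)) ≤ ε := by
      have h1 : 1 / ((m : ℝ) + 1) ≤ ε / 8 := by
        rw [div_le_iff₀ (by positivity)]
        linarith
      have h2 : 2 ^ m * (2 * (m : ℝ) ^ 2 / (box d L l).card) ≤ ε / 8 := by
        rw [← mul_div_assoc, div_le_iff₀ hB0r]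
        have h3 : 16 * 2 ^ m * (m : ℝ) ^ 2 / ε ≤ (box d L l).card := by
          have : (0 : ℝ) ≤ m := by positivity
          linarith
        rw [div_le_iff₀ hε] at h3
        linarith
      have h4 : (2 : ℝ) ^ m * ε' = ε / 8 := by linarith
      have h5 : 2 * (1 / ((m : ℝ) + 1) + 2 ^ m * (ε' + 2 * (m : ℝ) ^ 2 / (box d L l).card)) =
          2 * (1 / ((m : ℝ) + 1)) + 2 * (2 ^ m * ε') +
            2 * (2 ^ m * (2 * (m : ℝ) ^ 2 / (box d L l).card)) := by ring
      rw [h5, h4]
      linarith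
    refine le_trans (stirExp_mono nn_nonneg ht.le _ _ fun g => ?_) (hs.trans hb1)
    split_ifs with h1 h2
    · exact le_rfl
    · exfalso
      refine h2 ?_
      have h3 := dens_len g v ((box d L l).image fun b => v + b)
      rw [Finset.card_image_of_injective _ (fun a b h => add_left_cancel h), hcard] at h3
      refine h3.trans ?_
      push_cast
      have hmin : min X (L : ℝ) ≤ 2 / κ' * l := by
        have h4 : X ≤ 2 / κ' * ⌊κ' * X⌋₊ := by
          have h5 : 1 ≤ ⌊κ' * X⌋₊ := hl1.trans hlX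
          have h5r : (1 : ℝ) ≤ ⌊κ' * X⌋₊ := by exact_mod_cast h5
          have h6 := (Nat.lt_floor_add_one (κ' * X)).le
          have h7 : κ' * X ≤ 2 * ⌊κ' * X⌋₊ := by linarith
          have h8 : 2 / κ' * (⌊κ' * X⌋₊ : ℝ) = 2 * ⌊κ' * X⌋₊ / κ' := by ring
          rw [h8, le_div_iff₀ hκ'0]
          linarith
        have h9 : (L : ℝ) ≤ 2 / κ' * L := by
          refine le_mul_of_one_le_left (by linarith) ?_
          rw [le_div_iff₀ hκ'0]
          linarith
        rcases min_choice ⌊κ' * X⌋₊ L with h10 | h10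
        · rw [hl, h10]
          exact (min_le_left _ _).trans h4
        · rw [hl, h10]
          exact (min_le_right _ _).trans h9
      have h11 : c * min X (L : ℝ) ^ d ≤ 1 / (2 * m) * (l : ℝ) ^ d := by
        calc c * min X (L : ℝ) ^ d ≤ (κ' / 2) ^ d / (2 * m) * (2 / κ' * l) ^ d :=
              mul_le_mul hc1 (pow_le_pow_left₀ hmin0 hmin d) (by positivity) (by positivity)
          _ = ((κ' / 2) * (2 / κ' * l)) ^ d / (2 * m) := by rw [mul_pow (κ' / 2)]; ring
          _ = 1 / (2 * m) * (l : ℝ) ^ d := by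
              have : (κ' / 2) * (2 / κ' * l) = l := by field_simp
              rw [this]
              ring
      rw [div_le_iff₀ (by positivity)]
      exact h1.trans h11
    · positivity
    · exact le_rfl
  · have hlt : c * min X (L : ℝ) ^ d < 1 := by
      have hmG : min X (L : ℝ) ≤ G := by
        by_cases htT : T₀ ≤ t
        · have hNl : l < N := by
            by_contra h
            exact hcase ⟨htT, not_lt.1 h⟩
          have hgoal : min X (L : ℝ) ≤ N / κ' := by
            rcases min_choice ⌊κ' * X⌋₊ L with h10 | h10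
            · refine (min_le_left _ _).trans ?_
              rw [hl, h10] at hNl
              have h6 := (Nat.lt_floor_add_one (κ' * X)).le
              have h7 : ((⌊κ' * X⌋₊ + 1 : ℕ) : ℝ) ≤ N := by exact_mod_cast hNl
              push_cast at h7
              rw [le_div_iff₀ hκ'0]
              linarith
            · refine (min_le_right _ _).trans ?_
              rw [hl, h10] at hNl
              have h7 : (L : ℝ) ≤ N := by exact_mod_cast hNl.le
              refine h7.trans ?_
              rw [le_div_iff₀ hκ'0]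
              exact mul_le_of_le_one_right hN0.le hκ'1
          rw [hG]
          linarith
        · refine (min_le_left _ _).trans ?_
          have h1 : X ≤ T₀ := by
            rw [hX]
            have h2 : t ^ (((d : ℝ) + 1) / (d + 2)) ≤ T₀ ^ (((d : ℝ) + 1) / (d + 2)) :=
              Real.rpow_le_rpow ht.le (not_le.1 htT).le (by positivity)
            refine h2.trans ?_
            have h3 : T₀ ^ (((d : ℝ) + 1) / (d + 2)) ≤ T₀ ^ (1 : ℝ) := by
              refine Real.rpow_le_rpow_of_exponent_le hT₀ ?_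
              rw [div_le_one (by positivity)]
              linarith
            rwa [Real.rpow_one] at h3
          rw [hG]
          linarith
      have h1 := mul_le_mul_of_nonneg_left (pow_le_pow_left₀ hmin0 hmG d) hc0.le
      linarith
    have hzero : (fun g : Perm (Fin d → ZMod L) =>
        if (cycleLen g v : ℝ) ≤ c * min X (L : ℝ) ^ d then (1 : ℝ) else 0) = fun _ => 0 := by
      funext g
      rw [if_neg]
      intro h
      have h1 : (1 : ℝ) ≤ cycleLen g v := by exact_mod_cast one_le_len g v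
      linarith
    rw [hzero, exp_const]
    exact hε.le

end Pool.Agent.R517.PDL
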