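import Pool.Agent.R517.PDL.L5

/-!
# The probability that several points are in one cycle: all tori
-/

set_option autoImplicit false

namespace Pool.Agent.R517.PDL

open Finset Equiv
open Pool.Agent.Y998.ST (stirLaw stirExp hop nnRate lam exp_const exp_nonneg nn_nonneg nn_symm
  nn_diag law_nonneg qq_torus)
open Pool.Agent.Y998.LP (NN bfrac tdist NN_nonneg NN_one law_inv)
open Pool.Agent.R517.PDS

/-- few points, long times: all distances -/
theorem long_NN (d : ℕ) (hd : 1 ≤ d) (ε : ℝ) (hε : 0 < ε) :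
    ∃ A₁ : ℝ, 1 ≤ A₁ ∧ ∀ (L : ℕ) [NeZero L], 3 ≤ L → ∀ t : ℝ, A₁ * (L : ℝ) ^ 2 ≤ t →
      ∀ u w : Fin d → ZMod L, NN (nnRate d L) t (swap u w) ≤ ε := by
  obtain ⟨C, hC, hdist⟩ := Pool.Agent.Y998.LQ.t_dist d hd
  have hd1 : (1 : ℝ) ≤ d := by exact_mod_cast hd
  have hsq1 : 0 ≤ (C * d / ε) ^ 2 := sq_nonneg _
  refine ⟨1 + (C * d / ε) ^ 2, by linarith, ?_⟩
  intro L _ hL t hcase u w
  have hL3r : (3 : ℝ) ≤ L := by exact_mod_cast hL
  have ht0 : 0 < t := lt_of_lt_of_le (by positivity) hcase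
  have hst : 0 < Real.sqrt t := Real.sqrt_pos.2 ht0
  refine (hdist L hL t ht0 u w).trans ?_
  rw [div_le_iff₀ hst]
  have h1 := Pool.Agent.Results.MP_b817cf_pr.LocalPoissonDirichlet.dist_le u w
  have e2 : (Pool.Agent.Y998.LP.tdist u w : ℝ) =
    Pool.Agent.Results.MP_b817cf_pr.LocalPoissonDirichlet.torusDist u w := rfl
  rw [e2]
  have h3 : (C * d / ε * L) ^ 2 ≤ t := by
    refine le_trans ?_ hcase
    rw [mul_pow]
    refine mul_le_mul_of_nonneg_right ?_ (by positivity)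
    linarith
  have h4 : C * d / ε * L ≤ Real.sqrt t := Real.le_sqrt_of_sq_le h3
  calc C * (Pool.Agent.Results.MP_b817cf_pr.LocalPoissonDirichlet.torusDist u w : ℝ)
      ≤ C * (d * L) := mul_le_mul_of_nonneg_left h1 hC.le
    _ = ε * (C * d / ε * L) := by field_simp
    _ ≤ ε * Real.sqrt t := mul_le_mul_of_nonneg_left h4 hε.le

open Classical in
theorem kpt2 (d : ℕ) (hd : 1 ≤ d) (k : ℕ) (hk : 1 ≤ k) (ε : ℝ) (hε : 0 < ε) :
    ∃ T : ℝ, 0 < T ∧ ∃ κ : ℝ, 0 < κ ∧ ∀ (L : ℕ) [NeZero L], 3 ≤ L → ∀ t : ℝ, T ≤ t →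
      ∀ b : Fin k → Fin d → ZMod L, Function.Injective b →
      (∀ i j, (tdist (b i) (b j) : ℝ) ≤ κ * t ^ (((d : ℝ) + 1) / (d + 2))) →
      |stirExp (nnRate d L) t (fun g => if ∀ i j, g.SameCycle (b i) (b j) then 1 else 0) -
        1 / k| ≤ ε := by
  have hk1 : (1 : ℝ) ≤ k := by exact_mod_cast hk
  obtain ⟨T₀, hT₀, κ, hκ, _, h⟩ := kloc d hd k hk ε hε
  obtain ⟨A₁, hA₁, hlong⟩ := long_NN d hd (ε / k) (by positivity)
  refine ⟨T₀ + A₁ * (k : ℝ) ^ 2, by positivity, κ, hκ, ?_⟩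
  intro L _ hL t ht b hb hdis
  have hAk : 0 ≤ A₁ * (k : ℝ) ^ 2 := by positivity
  have hunf : stirExp (nnRate d L) t
      (fun g => if ∀ i j, g.SameCycle (b i) (b j) then (1 : ℝ) else 0) =
      ∑ g, stirLaw (nnRate d L) t g *
        (open Classical in if ∀ i j, g.SameCycle (b i) (b j) then (1 : ℝ) else 0) := rfl
  by_cases hkL : k ≤ L
  · obtain ⟨n, hn⟩ : ∃ n : ℕ, k = n + 1 := ⟨k - 1, by omega⟩
    subst hn
    have h1 := h L hL hkL t (by linarith) n le_rfl (b 0) (fun i => b i.succ)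
      (fun i h' => (Fin.succ_ne_zero i) (hb h'))
      (fun i j hij h' => hij (Fin.succ_injective _ (hb h')))
      (fun i => by
        have := hdis i.succ 0
        rwa [tdist_nrm] at this)
    have h2 : QQ (nnRate d L) t (b 0) (fun i => b i.succ) =
        ∑ g, stirLaw (nnRate d L) t g *
        (open Classical in if ∀ i j, g.SameCycle (b i) (b j) then (1 : ℝ) else 0) := by
      unfold QQ stirExp
      refine Finset.sum_congr rfl fun g _ => ?_
      beta_reduce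
      rw [II_eq]
    rw [h2] at h1
    rw [hunf]
    push_cast
    exact h1
  · have hLk : (L : ℝ) ≤ k := by exact_mod_cast (by omega : L ≤ k)
    have hL2 : A₁ * (L : ℝ) ^ 2 ≤ A₁ * (k : ℝ) ^ 2 :=
      mul_le_mul_of_nonneg_left (pow_le_pow_left₀ (by positivity) hLk 2) (by linarith)
    have h5 := one_cycle (nnRate d L) t hk b hb (ε / k) (by positivity)
      (fun i j => hlong L hL t (by linarith) (b i) (b j))
    rw [hunf]
    refine h5.trans (le_of_eq ?_)
    field_simp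

end Pool.Agent.R517.PDL
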